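import Mathlib
import Pool.Agent.H789R2.FR.Smooth
import Pool.Agent.H789R2.FR.Tail
set_option autoImplicit false

/-! Exponential integrals on the sphere: decay in the whole complex plane
(Phragmén–Lindelöf), and the resulting bound for the Fourier transform of the smoothing kernel. -/

namespace Pool.Agent.W5h48.RS

open MeasureTheory Measure Set Metric Complex Filter Topology
open Pool.Agent.H789R2.FR
open scoped ENNReal RealInnerProductSpace

/-- exponential integral -/
noncomputable def Bf {n : ℕ} (e : E n) (W : ℂ) : ℂ :=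
  ∫ x, Complex.exp (W * ((⟪e, x⟫ : ℝ) : ℂ)) ∂(sg n)

lemma Bf_eq {n : ℕ} (e : E n) (W : ℂ) :
    Bf e W = ProbabilityTheory.complexMGF (fun x : E n => ⟪e, x⟫) (sg n) W := rfl

lemma intExp {n : ℕ} (e : E n) (he : ‖e‖ = 1) (t : ℝ) :
    Integrable (fun x : E n => Real.exp (t * ⟪e, x⟫)) (sg n) := by
  have := sg_finite n
  refine Integrable.of_bound (Continuous.aestronglyMeasurable (by fun_prop)) (Real.exp |t|) ?_
  filter_upwards [sg_ae n] with x hx
  rw [Real.norm_of_nonneg (Real.exp_pos _).le]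
  apply Real.exp_le_exp.2
  have h1 := inner_abs_le_one e x he hx
  calc t * ⟪e, x⟫ ≤ |t * ⟪e, x⟫| := le_abs_self _
    _ = |t| * |⟪e, x⟫| := abs_mul _ _
    _ ≤ |t| * 1 := by gcongr
    _ = |t| := mul_one _

lemma Bf_diff {n : ℕ} (e : E n) (he : ‖e‖ = 1) : Differentiable ℂ (Bf e) := by
  have h1 : ProbabilityTheory.integrableExpSet (fun x : E n => ⟪e, x⟫) (sg n) = univ := by
    ext t
    simp only [mem_univ, iff_true]
    exact intExp e he t
  have h2 := ProbabilityTheory.differentiableOn_complexMGF (X := fun x : E n => ⟪e, x⟫)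
    (μ := sg n)
  rw [h1] at h2
  simp only [interior_univ, mem_univ, ofPred_true] at h2
  exact differentiableOn_univ.1 h2

lemma Bf_norm_le {n : ℕ} (e : E n) (he : ‖e‖ = 1) (W : ℂ) :
    ‖Bf e W‖ ≤ Real.exp |W.re| * (sg n).real univ := by
  have := sg_finite n
  unfold Bf
  calc ‖∫ x, Complex.exp (W * ((⟪e, x⟫ : ℝ) : ℂ)) ∂(sg n)‖
      ≤ ∫ _x, Real.exp |W.re| ∂(sg n) := by
        apply norm_integral_le_of_norm_le (integrable_const _)
        filter_upwards [sg_ae n] with x hx
        rw [Complex.norm_exp]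
        apply Real.exp_le_exp.2
        have h1 := inner_abs_le_one e x he hx
        have h2 : (W * ((⟪e, x⟫ : ℝ) : ℂ)).re = W.re * ⟪e, x⟫ := by simp
        rw [h2]
        calc W.re * ⟪e, x⟫ ≤ |W.re * ⟪e, x⟫| := le_abs_self _
          _ = |W.re| * |⟪e, x⟫| := abs_mul _ _
          _ ≤ |W.re| * 1 := by gcongr
          _ = |W.re| := mul_one _
    _ = Real.exp |W.re| * (sg n).real univ := by
        rw [integral_const, smul_eq_mul, mul_comm]

lemma Bf_real {n : ℕ} (e : E n) (he : ‖e‖ = 1) (t : ℝ) :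
    Bf e (t : ℂ) = ((Real.exp t * D t e : ℝ) : ℂ) := by
  rw [← integral_exp_eq t e he, ← integral_complex_ofReal]
  unfold Bf
  congr 1
  ext x
  push_cast
  rfl

lemma Bf_imag {n : ℕ} (e : E n) (t : ℝ) :
    Bf e ((t : ℂ) * I) = T (fun _ : E n => (1 : ℂ)) (-(t • e)) := by
  unfold Bf T
  congr 1
  ext x
  rw [mul_one]
  congr 1
  rw [inner_neg_left, real_inner_smul_left]
  push_cast
  ring

/-- Decay of the exponential integral in the right half plane. -/
theorem Bf_decay (n : ℕ) (hn : 2 ≤ n) : ∃ C : ℝ, 0 < C ∧ ∀ e : E n, ‖e‖ = 1 → ∀ W : ℂ,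
    0 ≤ W.re → ‖Bf e W‖ ≤ C * Real.exp W.re * ‖1 + W‖ ^ (-(((n : ℝ) - 1) / 2)) := by
  obtain ⟨C1, hC1, hdec⟩ := decay n hn
  obtain ⟨C2, hC2, hU⟩ := D_upper' n hn
  have := sg_finite n
  set d : ℝ := ((n : ℝ) - 1) / 2 with hd
  have hd0 : 0 ≤ d := by
    have : (2 : ℝ) ≤ n := by exact_mod_cast hn
    simp only [hd]; linarith
  have h3 : -((n : ℝ) - 1) / 2 = -d := by simp only [hd]; ring
  rw [h3] at hdec
  set t : ℝ := (sg n).real univ with ht
  have ht0 : 0 ≤ t := measureReal_nonneg
  refine ⟨(C1 + t) * 2 ^ d, by positivity, fun e he W hW => ?_⟩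
  set f : ℂ → ℂ := fun z => Bf e z * Complex.exp (-z) * (1 + z) ^ (d : ℂ) with hf
  have hne : ∀ z : ℂ, 0 ≤ z.re → 1 + z ∈ slitPlane := by
    intro z hz
    left
    simp
    linarith
  have hnf : ∀ z : ℂ, 0 ≤ z.re → ‖f z‖ = ‖Bf e z‖ * Real.exp (-z.re) * ‖1 + z‖ ^ d := by
    intro z hz
    simp only [hf, norm_mul]
    rw [Complex.norm_exp, Complex.neg_re, Complex.norm_cpow_real]
  have key : ‖f W‖ ≤ (C1 + t) * 2 ^ d := by
    apply PhragmenLindelof.right_half_plane_of_bounded_on_real (f := f) _ _ _ _ hW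
    · apply DifferentiableOn.diffContOnCl
      intro z hz
      have hz' : 0 ≤ z.re := by
        have : closure {z : ℂ | 0 < z.re} = {z : ℂ | 0 ≤ z.re} := Complex.closure_setOfPred_lt_re 0
        rw [this] at hz
        exact hz
      apply DifferentiableAt.differentiableWithinAt
      apply DifferentiableAt.mul
      · exact ((Bf_diff e he) z).mul (by fun_prop)
      · exact DifferentiableAt.cpow (by fun_prop) (by fun_prop) (hne z hz')
    · refine ⟨1, by norm_num, 1, ?_⟩
      apply Asymptotics.IsBigO.of_bound (t * (2 * d + 1) ^ d)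
      rw [eventually_inf_principal]
      refine Eventually.of_forall fun z hz => ?_
      have hz' : 0 < z.re := hz
      rw [hnf z hz'.le, Real.norm_of_nonneg (Real.exp_pos _).le, one_mul, Real.rpow_one]
      have h4 := Bf_norm_le e he z
      rw [abs_of_pos hz'] at h4
      have h5 : ‖1 + z‖ ^ d ≤ (1 + ‖z‖) ^ d := by
        apply Real.rpow_le_rpow (norm_nonneg _) _ hd0
        calc ‖1 + z‖ ≤ ‖(1 : ℂ)‖ + ‖z‖ := norm_add_le _ _
          _ = 1 + ‖z‖ := by simp
      have h6 := one_add_rpow_le d ‖z‖ hd0 (norm_nonneg _)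
      have h7 : Real.exp (‖z‖ / 2) ≤ Real.exp ‖z‖ := by
        apply Real.exp_le_exp.2
        linarith [norm_nonneg z]
      calc ‖Bf e z‖ * Real.exp (-z.re) * ‖1 + z‖ ^ d
          ≤ (Real.exp z.re * t) * Real.exp (-z.re) * ((2 * d + 1) ^ d * Real.exp ‖z‖) := by
            gcongr
            exact h5.trans (h6.trans (by gcongr))
        _ = (Real.exp z.re * Real.exp (-z.re)) * (t * (2 * d + 1) ^ d * Real.exp ‖z‖) := by ring
        _ = t * (2 * d + 1) ^ d * Real.exp ‖z‖ := by
            rw [← Real.exp_add]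
            simp
    · refine ⟨C2, ?_⟩
      rw [eventually_map]
      filter_upwards [eventually_ge_atTop 0] with x hx
      rw [hnf (x : ℂ) (by simpa using hx), Bf_real e he, Complex.norm_real,
        Real.norm_of_nonneg (by
          have : 0 ≤ D x e := integral_nonneg fun w => (Real.exp_pos _).le
          positivity), Complex.ofReal_re]
      have h4 := hU x hx e he
      have h5 : ‖(1 : ℂ) + (x : ℂ)‖ = 1 + x := by
        rw [← Complex.ofReal_one, ← Complex.ofReal_add, Complex.norm_real,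
          Real.norm_of_nonneg (by linarith)]
      rw [h5]
      have h6 : 0 < 1 + x := by linarith
      calc Real.exp x * D x e * Real.exp (-x) * (1 + x) ^ d
          = (Real.exp x * Real.exp (-x)) * (D x e * (1 + x) ^ d) := by ring
        _ = D x e * (1 + x) ^ d := by rw [← Real.exp_add]; simp
        _ ≤ (C2 * (1 + x) ^ (-d)) * (1 + x) ^ d := by gcongr
        _ = C2 := by
            rw [mul_assoc, ← Real.rpow_add h6]
            simp
    · intro x
      rw [hnf _ (by simp)]
      have h5 : ‖(1 : ℂ) + (x : ℂ) * I‖ ≤ 1 + |x| := by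
        calc ‖(1 : ℂ) + (x : ℂ) * I‖ ≤ ‖(1 : ℂ)‖ + ‖(x : ℂ) * I‖ := norm_add_le _ _
          _ = 1 + |x| := by simp
      have h6 : Real.exp (-(((x : ℂ) * I)).re) = 1 := by simp
      rw [h6, mul_one]
      rcases le_or_gt 1 |x| with h1 | h1
      · have hx0 : 0 < |x| := by linarith
        have hnx : ‖-(x • e)‖ = |x| := by rw [norm_neg, norm_smul, he, mul_one, Real.norm_eq_abs]
        have h7 : ‖Bf e ((x : ℂ) * I)‖ ≤ C1 * |x| ^ (-d) := by
          rw [Bf_imag]
          have := hdec (-(x • e)) (by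
            intro h
            rw [h, norm_zero] at hnx
            linarith)
          rwa [hnx] at this
        calc ‖Bf e ((x : ℂ) * I)‖ * ‖(1 : ℂ) + (x : ℂ) * I‖ ^ d
            ≤ (C1 * |x| ^ (-d)) * (2 * |x|) ^ d := by
              gcongr
              linarith
          _ = C1 * 2 ^ d * (|x| ^ (-d) * |x| ^ d) := by
              rw [Real.mul_rpow (by norm_num) hx0.le]
              ring
          _ = C1 * 2 ^ d := by
              rw [← Real.rpow_add hx0]
              simp
          _ ≤ (C1 + t) * 2 ^ d := by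
              gcongr
              linarith
      · have h7 := Bf_norm_le e he ((x : ℂ) * I)
        have h8 : |((x : ℂ) * I).re| = 0 := by simp
        rw [h8, Real.exp_zero, one_mul] at h7
        calc ‖Bf e ((x : ℂ) * I)‖ * ‖(1 : ℂ) + (x : ℂ) * I‖ ^ d
            ≤ t * 2 ^ d := by
              gcongr
              linarith
          _ ≤ (C1 + t) * 2 ^ d := by
              gcongr
              linarith
  rw [hnf W hW] at key
  have hpos : 0 < ‖1 + W‖ := norm_pos_iff.2 (slitPlane_ne_zero (hne W hW))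
  have hpp : 0 < ‖1 + W‖ ^ d := Real.rpow_pos_of_pos hpos d
  rw [Real.rpow_neg hpos.le]
  have hex : Real.exp W.re * Real.exp (-W.re) = 1 := by rw [← Real.exp_add]; simp
  calc ‖Bf e W‖ = (‖Bf e W‖ * Real.exp (-W.re) * ‖1 + W‖ ^ d) * Real.exp W.re *
        (‖1 + W‖ ^ d)⁻¹ := by
        have : ‖1 + W‖ ^ d * (‖1 + W‖ ^ d)⁻¹ = 1 := mul_inv_cancel₀ hpp.ne'
        calc ‖Bf e W‖ = ‖Bf e W‖ * (Real.exp W.re * Real.exp (-W.re)) *
              (‖1 + W‖ ^ d * (‖1 + W‖ ^ d)⁻¹) := by rw [hex, this]; ring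
          _ = _ := by ring
    _ ≤ ((C1 + t) * 2 ^ d) * Real.exp W.re * (‖1 + W‖ ^ d)⁻¹ := by gcongr

end Pool.Agent.W5h48.RS
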