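import Mathlib
import Pool.Agent.W5h48.RS.K1
set_option autoImplicit false

/-! The Fourier transform of the smoothing kernel. -/

namespace Pool.Agent.W5h48.RS

open MeasureTheory Measure Set Metric Complex Filter Topology
open Pool.Agent.H789R2.FR
open scoped ENNReal RealInnerProductSpace

/-- Fourier transform of the Gaussian kernel at the point `w'` of the sphere -/
noncomputable def KI {n : ℕ} (R : ℝ) (x w' : E n) : ℂ :=
  ∫ w, Complex.exp (-((⟪x, w⟫ : ℝ) : ℂ) * I) *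
      ((Real.exp (-(R / 2) * ‖w - w'‖ ^ 2) : ℝ) : ℂ) ∂(sg n)

theorem G_eq (n : ℕ) (hn : 2 ≤ n) (a b e : E n) (he : ‖e‖ = 1) (w : ℂ) (hw0 : w ≠ 0)
    (hw : w ^ 2 = ((‖a‖ ^ 2 - ‖b‖ ^ 2 : ℝ) : ℂ) - 2 * ((⟪a, b⟫ : ℝ) : ℂ) * I) :
    ∫ x, Complex.exp (((⟪a, x⟫ : ℝ) : ℂ) - ((⟪b, x⟫ : ℝ) : ℂ) * I) ∂(sg n) = Bf e w := by
  have := sg_finite n
  obtain ⟨u, v, a1, b1, b2, hu, hv, huv, ha, hb⟩ := exists_frame hn a b
  set α : ℂ := (a1 : ℂ) - b1 * I with hα
  set β : ℂ := -(b2 : ℂ) * I with hβ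
  have hna : ‖a‖ ^ 2 = a1 ^ 2 := by
    rw [ha, norm_smul, hu, mul_one, Real.norm_eq_abs, sq_abs]
  have hnb : ‖b‖ ^ 2 = b1 ^ 2 + b2 ^ 2 := by
    rw [hb, norm_add_sq_real, norm_smul, norm_smul, hu, hv, inner_smul_left, inner_smul_right, huv]
    simp
  have hab : ⟪a, b⟫ = a1 * b1 := by
    rw [ha, hb, inner_smul_left, inner_add_right, inner_smul_right, inner_smul_right, huv,
      real_inner_self_eq_norm_sq, hu]
    simp
  have hsum : α ^ 2 + β ^ 2 = w ^ 2 := by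
    rw [hw, hna, hnb, hab, hα, hβ]
    push_cast
    ring_nf
    rw [Complex.I_sq]
    ring
  have hprod : (α + β * I) * (α - β * I) = w ^ 2 := by
    rw [← hsum]
    ring_nf
    rw [Complex.I_sq]
    ring
  have hne : α + β * I ≠ 0 := by
    intro h
    rw [h, zero_mul] at hprod
    exact pow_ne_zero 2 hw0 hprod.symm
  set q : ℂ := (α + β * I) / w with hq
  have hq0 : q ≠ 0 := div_ne_zero hne hw0
  have hqi : q⁻¹ = (α - β * I) / w := by
    rw [hq, inv_div, div_eq_div_iff hne hw0]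
    rw [mul_comm (α - β * I), hprod]
    ring
  set z : ℂ := -I * Complex.log q with hz
  have hez : Complex.exp (z * I) = q := by
    have : z * I = Complex.log q := by
      rw [hz]
      linear_combination (-Complex.log q) * Complex.I_sq
    rw [this, Complex.exp_log hq0]
  have hez' : Complex.exp (-z * I) = q⁻¹ := by
    rw [neg_mul, Complex.exp_neg, hez]
  have hcos : w * Complex.cos z = α := by
    rw [Complex.cos, hez, hez', hqi, hq]
    field_simp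
    ring
  have hsin : w * Complex.sin z = β := by
    rw [Complex.sin, hez, hez', hqi, hq]
    field_simp
    ring_nf
    rw [Complex.I_sq]
    ring
  have h1 : ∫ x, Complex.exp (((⟪a, x⟫ : ℝ) : ℂ) - ((⟪b, x⟫ : ℝ) : ℂ) * I) ∂(sg n) =
      hfun w u v z := by
    rw [hfun]
    congr 1
    ext x
    congr 1
    rw [mul_add, ← mul_assoc, ← mul_assoc, hcos, hsin, ha, hb, inner_smul_left, inner_add_left,
      inner_smul_left, inner_smul_left, hα, hβ]
    push_cast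
    simp
    ring
  rw [h1, hfun_const w u v e hu hv huv he z]
  rfl

/-- The kernel far out. -/
theorem KB1 (n : ℕ) (hn : 2 ≤ n) : ∃ C : ℝ, 0 < C ∧ ∀ R : ℝ, 1 ≤ R → ∀ x : E n,
    2 * R ≤ ‖x‖ → ∀ y : E n, ‖y‖ = 1 → ∀ w' : E n, ‖w'‖ = 1 →
    ‖KI R x w'‖ / D R y ≤ C * (R / ‖x‖) ^ (((n : ℝ) - 1) / 2) *
      Real.exp (-((2 / 5) * R * (1 - ⟪‖x‖⁻¹ • x, w'⟫ ^ 2))) := by
  obtain ⟨C, hC, hB⟩ := Bf_decay n hn
  obtain ⟨c, hc, hL⟩ := D_lower n hn
  set d : ℝ := ((n : ℝ) - 1) / 2 with hd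
  have hd0 : 0 ≤ d := by
    have : (2 : ℝ) ≤ n := by exact_mod_cast hn
    simp only [hd]; linarith
  have h3 : -((n : ℝ) - 1) / 2 = -d := by simp only [hd]; ring
  rw [h3] at hL
  refine ⟨C * 2 ^ d / c, by positivity, fun R hR x hx y hy w' hw' => ?_⟩
  have hR0 : 0 < R := by linarith
  have hx0 : 0 < ‖x‖ := by linarith
  set e : E n := ‖x‖⁻¹ • x with he_def
  have he : ‖e‖ = 1 := by
    rw [he_def, norm_smul, norm_inv, norm_norm, inv_mul_cancel₀ hx0.ne']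
  set s : ℝ := ⟪e, w'⟫ with hs
  have hs1 : |s| ≤ 1 := inner_abs_le_one e w' he hw'
  have hxe : ⟪w', x⟫ = ‖x‖ * s := by
    have : x = ‖x‖ • e := by
      rw [he_def, smul_smul, mul_inv_cancel₀ hx0.ne', one_smul]
    conv_lhs => rw [this]
    rw [inner_smul_right, real_inner_comm]
  -- the square root, with nonnegative real part
  obtain ⟨W, hWre, hW⟩ : ∃ W : ℂ, 0 ≤ W.re ∧ W ^ 2 = (((‖R • w'‖ ^ 2 - ‖x‖ ^ 2 : ℝ) : ℂ) -
      2 * ((⟪R • w', x⟫ : ℝ) : ℂ) * I) := by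
    obtain ⟨W, hW⟩ := IsAlgClosed.exists_pow_nat_eq (((‖R • w'‖ ^ 2 - ‖x‖ ^ 2 : ℝ) : ℂ) -
      2 * ((⟪R • w', x⟫ : ℝ) : ℂ) * I) (n := 2) (by norm_num)
    rcases le_total 0 W.re with h | h
    · exact ⟨W, h, hW⟩
    · exact ⟨-W, by simpa using h, by rw [neg_sq, hW]⟩
  have hRw : ‖R • w'‖ = R := by
    rw [norm_smul, hw', mul_one, Real.norm_of_nonneg hR0.le]
  have hin : ⟪R • w', x⟫ = R * ‖x‖ * s := by
    rw [real_inner_smul_left, hxe]; ring
  have hW' : W ^ 2 = ((R ^ 2 - ‖x‖ ^ 2 : ℝ) : ℂ) - 2 * ((R * ‖x‖ * s : ℝ) : ℂ) * I := by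
    rw [hW, hRw, hin]
  have hre := re_sqrt_bound R ‖x‖ s hR hx hs1 W hW'
  rw [abs_of_nonneg hWre] at hre
  -- the size of `W`
  have hWn : ‖x‖ / 2 ≤ ‖W‖ := by
    have h4 : ‖W ^ 2‖ = ‖W‖ ^ 2 := norm_pow _ _
    have h5 : |(W ^ 2).re| ≤ ‖W ^ 2‖ := Complex.abs_re_le_norm _
    have h6 : (W ^ 2).re = R ^ 2 - ‖x‖ ^ 2 := by
      rw [hW']
      simp [pow_two]
    rw [h4, h6] at h5
    have h7 : ‖x‖ ^ 2 - R ^ 2 ≤ |R ^ 2 - ‖x‖ ^ 2| := by
      rw [abs_sub_comm]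
      exact le_abs_self _
    have h8 : (‖x‖ / 2) ^ 2 ≤ ‖W‖ ^ 2 := by nlinarith
    exact le_of_sq_le_sq h8 (norm_nonneg _)
  have hW0 : W ≠ 0 := by
    rintro rfl
    rw [norm_zero] at hWn
    linarith
  have h1W : ‖x‖ / 2 ≤ ‖1 + W‖ := by
    refine hWn.trans ?_
    have h4 : ‖W‖ ^ 2 = W.re ^ 2 + W.im ^ 2 := by
      rw [Complex.sq_norm, Complex.normSq_apply]
      ring
    have h5 : ‖1 + W‖ ^ 2 = (1 + W.re) ^ 2 + W.im ^ 2 := by
      rw [Complex.sq_norm, Complex.normSq_apply]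
      simp
      ring
    apply le_of_sq_le_sq _ (norm_nonneg _)
    rw [h4, h5]
    nlinarith
  have hG := G_eq n hn (R • w') x y hy W hW0 hW
  have hI : KI R x w' = ((Real.exp (-R) : ℝ) : ℂ) * Bf y W := by
    unfold KI
    rw [← hG, ← integral_const_mul]
    apply integral_congr_ae
    filter_upwards [sg_ae n] with w hw
    rw [norm_sub_rev, exp_inner_eq R w' w hw' hw, real_inner_smul_left]
    push_cast
    rw [← Complex.exp_add, ← Complex.exp_add, ← Complex.exp_add]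
    congr 1
    ring
  have hBW := hB y hy W hWre
  have hDpos := D_pos n hn R hR y hy
  have hDl := hL R hR y hy
  have hcd : 0 < c * R ^ (-d) := by positivity
  rw [hI, norm_mul, Complex.norm_real, Real.norm_of_nonneg (Real.exp_pos _).le]
  have hx2 : 0 < ‖x‖ / 2 := by linarith
  have h9 : ‖1 + W‖ ^ (-d) ≤ (‖x‖ / 2) ^ (-d) :=
    Real.rpow_le_rpow_of_nonpos hx2 h1W (by linarith)
  calc Real.exp (-R) * ‖Bf y W‖ / D R y
      ≤ Real.exp (-R) * (C * Real.exp W.re * (‖x‖ / 2) ^ (-d)) / (c * R ^ (-d)) := by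
        gcongr
        exact hBW.trans (by gcongr)
    _ = (C * 2 ^ d / c) * (R / ‖x‖) ^ d * (Real.exp (-R) * Real.exp W.re) := by
        rw [Real.div_rpow hR0.le hx0.le, Real.rpow_neg hx2.le, Real.rpow_neg hR0.le,
          Real.div_rpow hx0.le (by norm_num)]
        field_simp
    _ ≤ (C * 2 ^ d / c) * (R / ‖x‖) ^ d *
        Real.exp (-((2 / 5) * R * (1 - s ^ 2))) := by
        gcongr
        rw [← Real.exp_add]
        apply Real.exp_le_exp.2
        nlinarith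

end Pool.Agent.W5h48.RS
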