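import Mathlib
import Pool.Agent.W5h48.RS.K2
import Pool.Agent.H789R2.FR.Tail
import Pool.Agent.H789R2.FR.Core
set_option autoImplicit false

/-! Mean square of the smoothing kernel, and the square function of the cells. -/

namespace Pool.Agent.W5h48.RS

open MeasureTheory Measure Set Metric Complex Filter Topology
open Pool.Agent.H789R2.FR
open scoped ENNReal RealInnerProductSpace

/-- two caps -/
theorem exp_caps {n : ℕ} (c : ℝ) (hc : 0 ≤ c) (e w : E n) (he : ‖e‖ = 1) (hw : ‖w‖ = 1) :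
    Real.exp (-(c * (1 - ⟪e, w⟫ ^ 2))) ≤
      Real.exp (-(c / 2) * ‖e - w‖ ^ 2) + Real.exp (-(c / 2) * ‖-e - w‖ ^ 2) := by
  have h1 : ‖e - w‖ ^ 2 = 2 - 2 * ⟪e, w⟫ := by
    rw [norm_sub_sq_real, he, hw]; ring
  have h2 : ‖-e - w‖ ^ 2 = 2 + 2 * ⟪e, w⟫ := by
    rw [norm_sub_sq_real, norm_neg, he, hw, inner_neg_left]; ring
  have hs := inner_abs_le_one e w he hw
  rw [abs_le] at hs
  rw [h1, h2]
  set s : ℝ := ⟪e, w⟫
  rcases le_total 0 s with h | h
  · have : Real.exp (-(c * (1 - s ^ 2))) ≤ Real.exp (-(c / 2) * (2 - 2 * s)) := by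
      apply Real.exp_le_exp.2
      have : 0 ≤ c * (s * (1 - s)) := mul_nonneg hc (mul_nonneg h (by linarith))
      nlinarith
    linarith [Real.exp_pos (-(c / 2) * (2 + 2 * s))]
  · have : Real.exp (-(c * (1 - s ^ 2))) ≤ Real.exp (-(c / 2) * (2 + 2 * s)) := by
      apply Real.exp_le_exp.2
      have : 0 ≤ c * (-s * (1 + s)) := mul_nonneg hc (mul_nonneg (by linarith) (by linarith))
      nlinarith
    linarith [Real.exp_pos (-(c / 2) * (2 - 2 * s))]

theorem gint {n : ℕ} (c : ℝ) (hc : 0 ≤ c) (v : E n) :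
    Integrable (fun w : E n => Real.exp (-(c / 2) * ‖v - w‖ ^ 2)) (sg n) := by
  have := sg_finite n
  refine Integrable.of_bound (Continuous.aestronglyMeasurable (by fun_prop)) 1
    (Filter.Eventually.of_forall fun p => ?_)
  rw [Real.norm_of_nonneg (Real.exp_pos _).le, Real.exp_le_one_iff]
  have : 0 ≤ (c / 2) * ‖v - p‖ ^ 2 := by positivity
  linarith

theorem caps_int (n : ℕ) (hn : 2 ≤ n) : ∃ C : ℝ, 0 < C ∧ ∀ c : ℝ, 0 ≤ c → ∀ e : E n, ‖e‖ = 1 →
    ∫ w, Real.exp (-(c * (1 - ⟪e, w⟫ ^ 2))) ∂(sg n) ≤ C * (1 + c) ^ (-(((n : ℝ) - 1) / 2)) := by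
  obtain ⟨C, hC, hU⟩ := D_upper' n hn
  refine ⟨2 * C, by positivity, fun c hc e he => ?_⟩
  have h1 := hU c hc e he
  have h2 := hU c hc (-e) (by rw [norm_neg, he])
  calc ∫ w, Real.exp (-(c * (1 - ⟪e, w⟫ ^ 2))) ∂(sg n)
      ≤ ∫ w, (Real.exp (-(c / 2) * ‖e - w‖ ^ 2) + Real.exp (-(c / 2) * ‖-e - w‖ ^ 2))
          ∂(sg n) := by
        apply integral_mono_of_nonneg
        · exact Filter.Eventually.of_forall fun w => (Real.exp_pos _).le
        · exact (gint c hc e).add (gint c hc (-e))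
        · filter_upwards [sg_ae n] with w hw
          exact exp_caps c hc e w he hw
    _ = D c e + D c (-e) := by
        rw [integral_add (gint c hc e) (gint c hc (-e))]
        rfl
    _ ≤ _ := by linarith

theorem KI_zero {n : ℕ} (R : ℝ) (w' : E n) : KI R 0 w' = (D R w' : ℂ) := by
  unfold KI D
  have h : ((∫ w, Real.exp (-(R / 2) * ‖w' - w‖ ^ 2) ∂(sg n) : ℝ) : ℂ) =
      ∫ w, ((Real.exp (-(R / 2) * ‖w' - w‖ ^ 2) : ℝ) : ℂ) ∂(sg n) := integral_ofReal.symm
  rw [h]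
  congr 1
  ext w
  rw [inner_zero_left, norm_sub_rev]
  simp

theorem KI_cont (n : ℕ) (R : ℝ) (hR : 0 ≤ R) (x : E n) : Continuous (fun w' : E n => KI R x w') := by
  have := sg_finite n
  unfold KI
  apply continuous_of_dominated (bound := fun _ => 1)
  · intro w'
    exact Continuous.aestronglyMeasurable (by fun_prop)
  · intro w'
    refine Filter.Eventually.of_forall fun w => ?_
    rw [norm_mul, kern_norm, one_mul, Complex.norm_real, Real.norm_of_nonneg (Real.exp_pos _).le,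
      Real.exp_le_one_iff]
    have : 0 ≤ (R / 2) * ‖w - w'‖ ^ 2 := by positivity
    linarith
  · exact integrable_const _
  · exact Filter.Eventually.of_forall fun w => by fun_prop

/-- Mean square of the kernel. -/
theorem K3 (n : ℕ) (hn : 2 ≤ n) : ∃ C : ℝ, 0 < C ∧ ∀ R : ℝ, 1 ≤ R → ∀ x : E n,
    ∀ y : E n, ‖y‖ = 1 →
    ∫ w', (‖KI R x w'‖ / D R y) ^ 2 ∂(sg n) ≤
      C * R ^ (((n : ℝ) - 1) / 2) * (R + ‖x‖ ^ 2) ^ (-(((n : ℝ) - 1) / 2)) := by
  obtain ⟨C1, hC1, hB1⟩ := KB1 n hn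
  obtain ⟨C2, hC2, hB2⟩ := tail_kernel n hn
  obtain ⟨C3, hC3, hB3⟩ := caps_int n hn
  have := sg_finite n
  set d : ℝ := ((n : ℝ) - 1) / 2 with hd
  have hd0 : 0 ≤ d := by
    have : (2 : ℝ) ≤ n := by exact_mod_cast hn
    simp only [hd]; linarith
  set t : ℝ := (sg n).real univ with ht
  have ht0 : 0 ≤ t := measureReal_nonneg
  have hexpint : ∀ c : ℝ, 0 ≤ c → ∀ e : E n, ‖e‖ = 1 →
      Integrable (fun w : E n => Real.exp (-(c * (1 - ⟪e, w⟫ ^ 2)))) (sg n) := by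
    intro c hc e he
    refine Integrable.of_bound (Continuous.aestronglyMeasurable (by fun_prop)) 1 ?_
    filter_upwards [sg_ae n] with w hw
    rw [Real.norm_of_nonneg (Real.exp_pos _).le, Real.exp_le_one_iff]
    have hs := inner_abs_le_one e w he hw
    have h2 : ⟪e, w⟫ ^ 2 ≤ 1 := by
      rw [← sq_abs]
      nlinarith [abs_nonneg ⟪e, w⟫]
    have : 0 ≤ c * (1 - ⟪e, w⟫ ^ 2) := mul_nonneg hc (by linarith)
    linarith
  refine ⟨C1 ^ 2 * C3 * 4 ^ d + C2 ^ 2 * C3 * 34 ^ d + t + 1, by positivity,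
    fun R hR x y hy => ?_⟩
  have hR0 : 0 < R := by linarith
  have hRd : 0 < R ^ d := by positivity
  have hQ : 0 < (R + ‖x‖ ^ 2) ^ (-d) := by positivity
  have hDy := D_pos n hn R hR y hy
  rcases eq_or_ne x 0 with rfl | hx
  · have h1 : ∫ w', (‖KI R (0 : E n) w'‖ / D R y) ^ 2 ∂(sg n) = t := by
      rw [ht]
      have : ∫ w', (‖KI R (0 : E n) w'‖ / D R y) ^ 2 ∂(sg n) = ∫ _w', (1 : ℝ) ∂(sg n) := by
        apply integral_congr_ae
        filter_upwards [sg_ae n] with w hw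
        rw [KI_zero, D_const R w y hw hy, Complex.norm_real, Real.norm_of_nonneg hDy.le,
          div_self hDy.ne', one_pow]
      rw [this]
      simp
    rw [h1]
    have h2 : R ^ d * (R + ‖(0 : E n)‖ ^ 2) ^ (-d) = 1 := by
      rw [norm_zero, zero_pow (by norm_num), add_zero, ← Real.rpow_add hR0]
      simp
    rw [mul_assoc, h2, mul_one]
    have : 0 ≤ C1 ^ 2 * C3 * 4 ^ d + C2 ^ 2 * C3 * 34 ^ d := by positivity
    linarith
  have hx0 : 0 < ‖x‖ := norm_pos_iff.2 hx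
  have he : ‖‖x‖⁻¹ • x‖ = 1 := by
    rw [norm_smul, norm_inv, norm_norm, inv_mul_cancel₀ hx0.ne']
  rcases le_total (2 * R) ‖x‖ with hx2 | hx2
  · -- far
    have h1 : ∫ w', (‖KI R x w'‖ / D R y) ^ 2 ∂(sg n) ≤
        ∫ w', (C1 * (R / ‖x‖) ^ d) ^ 2 *
          Real.exp (-((4 / 5 * R) * (1 - ⟪‖x‖⁻¹ • x, w'⟫ ^ 2))) ∂(sg n) := by
      apply integral_mono_of_nonneg
      · exact Filter.Eventually.of_forall fun w => sq_nonneg _
      · exact (hexpint (4 / 5 * R) (by positivity) _ he).const_mul _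
      · filter_upwards [sg_ae n] with w hw
        have h2 := hB1 R hR x hx2 y hy w hw
        have h3 : 0 ≤ ‖KI R x w‖ / D R y := by positivity
        calc (‖KI R x w‖ / D R y) ^ 2 ≤ (C1 * (R / ‖x‖) ^ d *
              Real.exp (-((2 / 5) * R * (1 - ⟪‖x‖⁻¹ • x, w⟫ ^ 2)))) ^ 2 := by gcongr
          _ = _ := by
              rw [mul_pow, ← Real.exp_nat_mul]
              congr 2
              push_cast
              ring
    rw [integral_const_mul] at h1
    have h4 := hB3 (4 / 5 * R) (by positivity) _ he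
    have h5 : (1 + 4 / 5 * R) ^ (-d) ≤ 2 ^ d * R ^ (-d) := by
      have : 2 ^ d * R ^ (-d) = (R / 2) ^ (-d) := by
        rw [Real.div_rpow hR0.le (by norm_num), Real.rpow_neg (by norm_num : (0:ℝ) ≤ 2)]
        field_simp
      rw [this]
      exact Real.rpow_le_rpow_of_nonpos (by positivity) (by linarith) (by linarith)
    have h6 : (R / ‖x‖) ^ d * (R / ‖x‖) ^ d * R ^ (-d) ≤ R ^ d * (2 ^ d * (R + ‖x‖ ^ 2) ^ (-d)) := by
      have e1 : (R / ‖x‖) ^ d * (R / ‖x‖) ^ d * R ^ (-d) = R ^ d * (‖x‖ ^ 2) ^ (-d) := by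
        rw [← Real.mul_rpow (by positivity) (by positivity)]
        have : R / ‖x‖ * (R / ‖x‖) = R ^ 2 * (‖x‖ ^ 2)⁻¹ := by field_simp
        rw [this, Real.mul_rpow (by positivity) (by positivity), Real.inv_rpow (by positivity),
          ← Real.rpow_neg (by positivity)]
        have : (R ^ 2) ^ d = R ^ d * R ^ d := by
          rw [pow_two, Real.mul_rpow hR0.le hR0.le]
        rw [this, Real.rpow_neg hR0.le]
        field_simp
      rw [e1]
      have e2 : (2 : ℝ) ^ d * (R + ‖x‖ ^ 2) ^ (-d) = ((R + ‖x‖ ^ 2) / 2) ^ (-d) := by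
        rw [Real.div_rpow (by positivity) (by norm_num), Real.rpow_neg (by norm_num : (0:ℝ) ≤ 2)]
        field_simp
      rw [e2]
      gcongr R ^ d * ?_
      apply Real.rpow_le_rpow_of_nonpos (by positivity) _ (by linarith)
      nlinarith
    calc ∫ w', (‖KI R x w'‖ / D R y) ^ 2 ∂(sg n)
        ≤ (C1 * (R / ‖x‖) ^ d) ^ 2 * (C3 * (1 + 4 / 5 * R) ^ (-d)) := h1.trans (by gcongr)
      _ ≤ (C1 * (R / ‖x‖) ^ d) ^ 2 * (C3 * (2 ^ d * R ^ (-d))) := by gcongr
      _ = C1 ^ 2 * C3 * 2 ^ d * ((R / ‖x‖) ^ d * (R / ‖x‖) ^ d * R ^ (-d)) := by ring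
      _ ≤ C1 ^ 2 * C3 * 2 ^ d * (R ^ d * (2 ^ d * (R + ‖x‖ ^ 2) ^ (-d))) := by gcongr
      _ = (C1 ^ 2 * C3 * (2 ^ d * 2 ^ d)) * R ^ d * (R + ‖x‖ ^ 2) ^ (-d) := by ring
      _ = (C1 ^ 2 * C3 * 4 ^ d) * R ^ d * (R + ‖x‖ ^ 2) ^ (-d) := by
          rw [← Real.mul_rpow (by norm_num) (by norm_num)]
          norm_num
      _ ≤ _ := by
          gcongr
          have : 0 ≤ C2 ^ 2 * C3 * 34 ^ d + t + 1 := by positivity
          linarith
  · -- near
    have hx4 : ‖x‖ ≤ 4 * R := by linarith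
    set c : ℝ := ‖x‖ ^ 2 / (34 * R) with hc
    have hc0 : 0 ≤ c := by positivity
    have h1 : ∫ w', (‖KI R x w'‖ / D R y) ^ 2 ∂(sg n) ≤
        ∫ w', C2 ^ 2 * Real.exp (-(c * (1 - ⟪‖x‖⁻¹ • x, w'⟫ ^ 2))) ∂(sg n) := by
      apply integral_mono_of_nonneg
      · exact Filter.Eventually.of_forall fun w => sq_nonneg _
      · exact (hexpint c hc0 _ he).const_mul _
      · filter_upwards [sg_ae n] with w hw
        have h2 := hB2 R hR x hx hx4 y hy w hw
        have h3 : 0 ≤ ‖KI R x w‖ / D R y := by positivity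
        calc (‖KI R x w‖ / D R y) ^ 2 ≤ (C2 *
              Real.exp (-(‖x‖ ^ 2 * (1 - ⟪‖x‖⁻¹ • x, w⟫ ^ 2) / (68 * R)))) ^ 2 := by
              gcongr
              exact h2
          _ = _ := by
              rw [mul_pow, ← Real.exp_nat_mul, hc]
              congr 2
              push_cast
              field_simp
              ring
    rw [integral_const_mul] at h1
    have h4 := hB3 c hc0 _ he
    have h5 : (1 + c) ^ (-d) ≤ 34 ^ d * (R ^ d * (R + ‖x‖ ^ 2) ^ (-d)) := by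
      have e2 : 34 ^ d * (R ^ d * (R + ‖x‖ ^ 2) ^ (-d)) = ((R + ‖x‖ ^ 2) / (34 * R)) ^ (-d) := by
        rw [Real.div_rpow (by positivity) (by positivity), Real.mul_rpow (by norm_num) hR0.le,
          Real.rpow_neg (by norm_num : (0:ℝ) ≤ 34), Real.rpow_neg hR0.le]
        field_simp
      rw [e2]
      apply Real.rpow_le_rpow_of_nonpos (by positivity) _ (by linarith)
      rw [add_div, hc]
      have : R / (34 * R) = 1 / 34 := by field_simp
      rw [this]
      linarith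
    calc ∫ w', (‖KI R x w'‖ / D R y) ^ 2 ∂(sg n)
        ≤ C2 ^ 2 * (C3 * (1 + c) ^ (-d)) := h1.trans (by gcongr)
      _ ≤ C2 ^ 2 * (C3 * (34 ^ d * (R ^ d * (R + ‖x‖ ^ 2) ^ (-d)))) := by gcongr
      _ = (C2 ^ 2 * C3 * 34 ^ d) * R ^ d * (R + ‖x‖ ^ 2) ^ (-d) := by ring
      _ ≤ _ := by
          gcongr
          have : 0 ≤ C1 ^ 2 * C3 * 4 ^ d + t + 1 := by positivity
          linarith

end Pool.Agent.W5h48.RS
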