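import Mathlib
import Pool.Agent.W5h48.RS.K3
import Pool.Agent.H789R2.FR.Weak
set_option autoImplicit false

/-! The square function of the cells. -/

namespace Pool.Agent.W5h48.RS

open MeasureTheory Measure Set Metric Complex Filter Topology
open Pool.Agent.H789R2.FR
open scoped ENNReal RealInnerProductSpace

/-- the part of `b` over the cell `i` -/
noncomputable def ind {n N : ℕ} (q : E n → Fin N) (b : E n → ℂ) (i : Fin N) : E n → ℂ :=
  {w | q w = i}.indicator b

theorem ind_meas {n N : ℕ} {q : E n → Fin N} (hq : Measurable q) {b : E n → ℂ} (hb : Measurable b)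
    (i : Fin N) : Measurable (ind q b i) :=
  hb.indicator (hq (measurableSet_singleton i))

theorem ind_bound {n N : ℕ} {q : E n → Fin N} {b : E n → ℂ} {β : ℝ} (hb : ∀ w, ‖b w‖ ≤ β)
    (i : Fin N) (w : E n) : ‖ind q b i w‖ ≤ β :=
  (norm_indicator_le_norm_self _ _).trans (hb w)

theorem cell_sq (n : ℕ) (hn : 2 ≤ n) : ∃ C : ℝ, 0 < C ∧ ∀ (N : ℕ) (q : E n → Fin N),
    Measurable q → ∀ a : ℝ, (∀ i, (sg n).real {w | q w = i} ≤ a) → ∀ b : E n → ℂ,
    Measurable b → ∀ β : ℝ, (∀ w, ‖b w‖ ≤ β) → 0 ≤ a → ∀ R : ℝ, 1 ≤ R → ∀ x : E n,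
    ∑ i, ‖T (A R (ind q b i)) x‖ ^ 2 ≤
      C * (a * β ^ 2) * (R ^ (((n : ℝ) - 1) / 2) * (R + ‖x‖ ^ 2) ^ (-(((n : ℝ) - 1) / 2))) := by
  obtain ⟨C, hC, hK⟩ := K3 n hn
  obtain ⟨y, hy⟩ := exists_unit n hn
  have := sg_finite n
  refine ⟨C, hC, fun N q hq a ha b hb β hβ ha0 R hR x => ?_⟩
  have hR0 : 0 < R := by linarith
  have hDy := D_pos n hn R hR y hy
  have hβ0 : 0 ≤ β := (norm_nonneg _).trans (hβ 0)
  set t : ℝ := (sg n).real univ with ht
  set f : E n → ℝ := fun w => ‖KI R x w‖ / D R y with hf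
  have hfc : Continuous f := (KI_cont n R hR0.le x).norm.div_const _
  have hf0 : ∀ w, 0 ≤ f w := fun w => by positivity
  have hKI : ∀ w, ‖KI R x w‖ ≤ t := by
    intro w
    unfold KI
    calc ‖∫ v, Complex.exp (-((⟪x, v⟫ : ℝ) : ℂ) * I) *
          ((Real.exp (-(R / 2) * ‖v - w‖ ^ 2) : ℝ) : ℂ) ∂(sg n)‖ ≤ 1 * (sg n).real univ := by
          refine norm_integral_le_of_norm_le_const ?_
          filter_upwards with v
          rw [norm_mul, kern_norm, one_mul, Complex.norm_real,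
            Real.norm_of_nonneg (Real.exp_pos _).le]
          exact w_le R hR0.le v w
      _ = t := by rw [one_mul]
  have hfb : ∀ w, ‖f w‖ ≤ t / D R y := by
    intro w
    rw [Real.norm_of_nonneg (hf0 w)]
    have := hKI w
    simp only [hf]
    gcongr
  have hf2 : Integrable (fun w => f w ^ 2) (sg n) := by
    refine Integrable.of_bound (hfc.pow 2).aestronglyMeasurable ((t / D R y) ^ 2)
      (Filter.Eventually.of_forall fun w => ?_)
    rw [norm_pow]
    exact pow_le_pow_left₀ (norm_nonneg _) (hfb w) 2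
  have hS : ∀ i, MeasurableSet {w | q w = i} := fun i => hq (measurableSet_singleton i)
  -- each term
  have h1 : ∀ i, ‖T (A R (ind q b i)) x‖ ≤ ∫ w in {w | q w = i}, β * f w ∂(sg n) := by
    intro i
    rw [T_A_eq n hn (ind q b i) (ind_meas hq hb i) β (ind_bound hβ i) R hR x y hy]
    rw [← integral_indicator (hS i)]
    refine norm_integral_le_of_norm_le ?_ ?_
    · refine Integrable.indicator ?_ (hS i)
      refine Integrable.of_bound (hfc.measurable.const_mul β).aestronglyMeasurable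
        (β * (t / D R y)) (Filter.Eventually.of_forall fun w => ?_)
      rw [norm_mul, Real.norm_of_nonneg hβ0]
      exact mul_le_mul_of_nonneg_left (hfb w) hβ0
    · filter_upwards with w
      rw [norm_mul, norm_div, Complex.norm_real, Real.norm_of_nonneg hDy.le]
      by_cases h : q w = i
      · have e1 : ind q b i w = b w := indicator_of_mem (show w ∈ {w | q w = i} from h) _
        rw [e1, indicator_of_mem (show w ∈ {w | q w = i} from h)]
        exact mul_le_mul_of_nonneg_right (hβ w) (hf0 w)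
      · have e1 : ind q b i w = 0 := indicator_of_notMem (show w ∉ {w | q w = i} from h) _
        rw [e1, indicator_of_notMem (show w ∉ {w | q w = i} from h)]
        simp
  have h2 : ∀ i, ‖T (A R (ind q b i)) x‖ ^ 2 ≤
      a * β ^ 2 * ∫ w in {w | q w = i}, f w ^ 2 ∂(sg n) := by
    intro i
    have hcs := Pool.Agent.H789R2.FR.Weak.cs (μ := (sg n).restrict {w | q w = i})
      (a := fun _ => (1 : ℝ)) (b := fun w => β * f w) measurable_const
      (hfc.measurable.const_mul β) (A := 1) (B := β * (t / D R y)) (by simp)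
      (fun w => by
        rw [norm_mul, Real.norm_of_nonneg hβ0]
        exact mul_le_mul_of_nonneg_left (hfb w) hβ0)
    have e1 : ∫ _w in {w | q w = i}, ((1 : ℝ)) ^ 2 ∂(sg n) = (sg n).real {w | q w = i} := by
      simp
    have e2 : ∫ w in {w | q w = i}, (β * f w) ^ 2 ∂(sg n) =
        β ^ 2 * ∫ w in {w | q w = i}, f w ^ 2 ∂(sg n) := by
      rw [← integral_const_mul]
      congr 1
      ext w
      ring
    have e3 : ∫ w in {w | q w = i}, (1 : ℝ) * (β * f w) ∂(sg n) =
        ∫ w in {w | q w = i}, β * f w ∂(sg n) := by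
      congr 1
      ext w
      ring
    rw [e1, e2, e3] at hcs
    have h0 : 0 ≤ ∫ w in {w | q w = i}, f w ^ 2 ∂(sg n) := integral_nonneg fun w => sq_nonneg _
    calc ‖T (A R (ind q b i)) x‖ ^ 2 ≤ (∫ w in {w | q w = i}, β * f w ∂(sg n)) ^ 2 := by
          have := h1 i
          gcongr
      _ ≤ (sg n).real {w | q w = i} * (β ^ 2 * ∫ w in {w | q w = i}, f w ^ 2 ∂(sg n)) := hcs
      _ ≤ a * (β ^ 2 * ∫ w in {w | q w = i}, f w ^ 2 ∂(sg n)) := by
          have := ha i
          gcongr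
      _ = _ := by ring
  have h3 : ∑ i, ∫ w in {w | q w = i}, f w ^ 2 ∂(sg n) = ∫ w, f w ^ 2 ∂(sg n) := by
    have h4 : ∫ w in ⋃ i, {w | q w = i}, f w ^ 2 ∂(sg n) =
        ∑ i, ∫ w in {w | q w = i}, f w ^ 2 ∂(sg n) := by
      apply integral_iUnion_fintype (fun i => hS i)
      · intro i j hij
        rw [Function.onFun, Set.disjoint_left]
        intro w hw hw'
        exact hij (hw.symm.trans hw')
      · intro i
        exact hf2.integrableOn
    have h5 : (⋃ i, {w | q w = i}) = univ := by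
      ext w
      simp
    rw [← h4, h5, Measure.restrict_univ]
  calc ∑ i, ‖T (A R (ind q b i)) x‖ ^ 2
      ≤ ∑ i, a * β ^ 2 * ∫ w in {w | q w = i}, f w ^ 2 ∂(sg n) :=
        Finset.sum_le_sum fun i _ => h2 i
    _ = a * β ^ 2 * ∫ w, f w ^ 2 ∂(sg n) := by rw [← Finset.mul_sum, h3]
    _ ≤ a * β ^ 2 * (C * R ^ (((n : ℝ) - 1) / 2) * (R + ‖x‖ ^ 2) ^ (-(((n : ℝ) - 1) / 2))) := by
        have := hK R hR x y hy
        gcongr
    _ = _ := by ring

/-- Fourier transforms of smoothed measures are Lipschitz. -/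
theorem T_lip {n : ℕ} {h : E n → ℂ} (hh : Measurable h) {M : ℝ} (hM : ∀ x, ‖h x‖ ≤ M)
    (x x' : E n) : ‖T h x - T h x'‖ ≤ ‖x - x'‖ * M * (sg n).real univ := by
  have := sg_finite n
  have hM0 : 0 ≤ M := (norm_nonneg _).trans (hM 0)
  rw [T, T, ← integral_sub (T_integrable hh hM x) (T_integrable hh hM x')]
  refine norm_integral_le_of_norm_le_const ?_
  filter_upwards [sg_ae n] with w hw
  rw [← sub_mul, norm_mul]
  have h1 : ‖Complex.exp (-((⟪x, w⟫ : ℝ) : ℂ) * I) - Complex.exp (-((⟪x', w⟫ : ℝ) : ℂ) * I)‖ ≤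
      ‖x - x'‖ := by
    have e1 : Complex.exp (-((⟪x, w⟫ : ℝ) : ℂ) * I) - Complex.exp (-((⟪x', w⟫ : ℝ) : ℂ) * I) =
        Complex.exp (-((⟪x', w⟫ : ℝ) : ℂ) * I) *
          (Complex.exp (I * ((-⟪x - x', w⟫ : ℝ) : ℂ)) - 1) := by
      rw [mul_sub, mul_one, ← Complex.exp_add, inner_sub_left]
      congr 2
      push_cast
      ring
    rw [e1, norm_mul, kern_norm, one_mul]
    refine (Real.norm_exp_I_mul_ofReal_sub_one_le).trans ?_
    rw [norm_neg, Real.norm_eq_abs]
    calc |⟪x - x', w⟫| ≤ ‖x - x'‖ * ‖w‖ := abs_real_inner_le_norm _ _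
      _ = ‖x - x'‖ := by rw [hw, mul_one]
  exact mul_le_mul h1 (hM w) (norm_nonneg _) (norm_nonneg _)

end Pool.Agent.W5h48.RS
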