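import Mathlib
import Pool.Agent.H789R2.FR.Defs
set_option autoImplicit false

/-! Summation over the scales. -/

namespace Pool.Agent.W5h48.RS

open MeasureTheory ProbabilityTheory Set Complex
open Pool.Agent.H789R2.FR

theorem exists_scale (X : ℝ) (hX : 0 ≤ X) : ∃ j : ℕ, X ≤ 2 ^ j ∧ (2 : ℝ) ^ j ≤ 2 * (1 + X) := by
  have hex : ∃ j : ℕ, X ≤ 2 ^ j := by
    obtain ⟨j, hj⟩ := pow_unbounded_of_one_lt X (by norm_num : (1 : ℝ) < 2)
    exact ⟨j, hj.le⟩
  classical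
  refine ⟨Nat.find hex, Nat.find_spec hex, ?_⟩
  rcases Nat.eq_zero_or_pos (Nat.find hex) with h | h
  · rw [h]
    simp only [pow_zero]
    linarith
  · obtain ⟨i, hi⟩ : ∃ i, Nat.find hex = i + 1 := ⟨Nat.find hex - 1, by omega⟩
    have h2 := Nat.find_min hex (m := i) (by omega)
    rw [not_le] at h2
    rw [hi, pow_succ]
    linarith

theorem scale_log (X : ℝ) (hX : 0 ≤ X) (j : ℕ) (hj : (2 : ℝ) ^ j ≤ 2 * (1 + X)) :
    (j : ℝ) + 1 ≤ 2 * (1 + Real.log (1 + X)) := by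
  have h1 : Real.log ((2 : ℝ) ^ j) ≤ Real.log (2 * (1 + X)) :=
    Real.log_le_log (by positivity) hj
  rw [Real.log_pow, Real.log_mul (by norm_num) (by linarith)] at h1
  have h2 : 0.5 ≤ Real.log 2 := by
    have := Real.log_two_gt_d9
    linarith
  have h3 : 0 ≤ Real.log (1 + X) := Real.log_nonneg (by linarith)
  have h4 : ((j : ℝ) - 1) * Real.log 2 ≤ Real.log (1 + X) := by linarith
  rcases le_total ((j : ℝ) - 1) 0 with h | h
  · linarith
  · nlinarith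

theorem summ_aux (d : ℝ) (hd : 0 < d) :
    Summable (fun l : ℕ => Real.sqrt (l + 1) * ((2 : ℝ) ^ (-d)) ^ l) := by
  set r : ℝ := (2 : ℝ) ^ (-d) with hr
  have hr0 : 0 < r := by positivity
  have hr1 : r < 1 := Real.rpow_lt_one_of_one_lt_of_neg (by norm_num) (by linarith)
  have h1 : Summable (fun l : ℕ => ((l : ℝ) + 1) * r ^ l) := by
    have e1 := summable_pow_mul_geometric_of_norm_lt_one (R := ℝ) 1 (r := r)
      (by rw [Real.norm_of_nonneg hr0.le]; exact hr1)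
    have e2 := summable_geometric_of_lt_one hr0.le hr1
    refine (e1.add e2).congr fun l => ?_
    ring
  refine Summable.of_nonneg_of_le (fun l => by positivity) (fun l => ?_) h1
  gcongr
  rw [Real.sqrt_le_left (by positivity)]
  have : (0 : ℝ) ≤ l := by positivity
  nlinarith

/-- the sum over the scales -/
theorem sum_scales (d : ℝ) (hd : 0 < d) : ∃ C : ℝ, 0 < C ∧ ∀ (X : ℝ), 0 ≤ X → ∀ j : ℕ,
    X ≤ 2 ^ j → (2 : ℝ) ^ j ≤ 2 * (1 + X) →
    Summable (fun m : ℕ => Real.sqrt (m + j + 1) * (4 ^ m + X ^ 2) ^ (-(d / 2))) ∧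
    ∑' m : ℕ, Real.sqrt (m + j + 1) * (4 ^ m + X ^ 2) ^ (-(d / 2)) ≤
      C * (1 + Real.log (1 + X)) ^ (3 / 2 : ℝ) * (1 + X) ^ (-d) := by
  set S : ℝ := ∑' l : ℕ, Real.sqrt (l + 1) * ((2 : ℝ) ^ (-d)) ^ l with hS
  have hS0 : 0 ≤ S := tsum_nonneg fun l => by positivity
  have hsum := summ_aux d hd
  refine ⟨Real.sqrt 2 * 2 ^ d * (1 + S) * 2 ^ (3 / 2 : ℝ), by positivity,
    fun X hX j hj hj2 => ?_⟩
  have hX1 : 0 < 1 + X := by linarith
  set u : ℕ → ℝ := fun m => Real.sqrt (m + j + 1) * (4 ^ m + X ^ 2) ^ (-(d / 2)) with hu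
  have hXd : 0 < (1 + X) ^ (-d) := by positivity
  -- small m
  have h1 : ∀ m : ℕ, m < j → u m ≤ Real.sqrt 2 * Real.sqrt (j + 1) * (2 ^ d * (1 + X) ^ (-d)) := by
    intro m hm
    have hmj : (m : ℝ) ≤ j := by exact_mod_cast hm.le
    have e1 : Real.sqrt (m + j + 1) ≤ Real.sqrt 2 * Real.sqrt (j + 1) := by
      rw [← Real.sqrt_mul (by norm_num)]
      apply Real.sqrt_le_sqrt
      linarith
    have e2 : (4 ^ m + X ^ 2) ^ (-(d / 2)) ≤ 2 ^ d * (1 + X) ^ (-d) := by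
      have e3 : 2 ^ d * (1 + X) ^ (-d) = (((1 + X) / 2) ^ 2) ^ (-(d / 2)) := by
        rw [← Real.rpow_natCast (((1 + X) / 2)), ← Real.rpow_mul (by positivity)]
        have : ((2 : ℕ) : ℝ) * -(d / 2) = -d := by push_cast; ring
        rw [this, Real.div_rpow hX1.le (by norm_num), Real.rpow_neg (by norm_num : (0:ℝ) ≤ 2)]
        field_simp
      rw [e3]
      apply Real.rpow_le_rpow_of_nonpos (by positivity) _ (by linarith)
      have : (1 : ℝ) ≤ 4 ^ m := one_le_pow₀ (by norm_num)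
      nlinarith [sq_nonneg (1 - X)]
    simp only [hu]
    gcongr
  -- large m
  have h2 : ∀ l : ℕ, u (l + j) ≤ Real.sqrt 2 * Real.sqrt (j + 1) * (2 ^ d * (1 + X) ^ (-d)) *
      (Real.sqrt (l + 1) * ((2 : ℝ) ^ (-d)) ^ l) := by
    intro l
    have e1 : Real.sqrt (((l + j : ℕ) : ℝ) + j + 1) ≤
        Real.sqrt 2 * Real.sqrt (j + 1) * Real.sqrt (l + 1) := by
      rw [← Real.sqrt_mul (by norm_num), ← Real.sqrt_mul (by positivity)]
      apply Real.sqrt_le_sqrt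
      push_cast
      have : (0 : ℝ) ≤ (l : ℝ) * j := by positivity
      have : (0 : ℝ) ≤ (l : ℝ) := by positivity
      nlinarith
    have e2 : (4 ^ (l + j) + X ^ 2) ^ (-(d / 2)) ≤ (2 ^ d * (1 + X) ^ (-d)) * ((2 : ℝ) ^ (-d)) ^ l := by
      have e3 : (4 ^ (l + j) + X ^ 2) ^ (-(d / 2)) ≤ (((2 : ℝ) ^ (l + j)) ^ 2) ^ (-(d / 2)) := by
        apply Real.rpow_le_rpow_of_nonpos (by positivity) _ (by linarith)
        have : ((2 : ℝ) ^ (l + j)) ^ 2 = 4 ^ (l + j) := by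
          rw [← pow_mul, mul_comm (l + j) 2, pow_mul]; norm_num
        rw [this]
        nlinarith [sq_nonneg X]
      have e4 : (((2 : ℝ) ^ (l + j)) ^ 2) ^ (-(d / 2)) = ((2 : ℝ) ^ j) ^ (-d) * ((2 : ℝ) ^ (-d)) ^ l := by
        rw [← Real.rpow_natCast ((2 : ℝ) ^ (l + j)) 2, ← Real.rpow_mul (by positivity)]
        have : ((2 : ℕ) : ℝ) * -(d / 2) = -d := by push_cast; ring
        rw [this, pow_add, Real.mul_rpow (by positivity) (by positivity), mul_comm]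
        congr 1
        rw [← Real.rpow_natCast, ← Real.rpow_natCast, ← Real.rpow_mul (by norm_num),
          ← Real.rpow_mul (by norm_num), mul_comm]
      have e5 : ((2 : ℝ) ^ j) ^ (-d) ≤ 2 ^ d * (1 + X) ^ (-d) := by
        have e6 : 2 ^ d * (1 + X) ^ (-d) = ((1 + X) / 2) ^ (-d) := by
          rw [Real.div_rpow hX1.le (by norm_num), Real.rpow_neg (by norm_num : (0:ℝ) ≤ 2)]
          field_simp
        rw [e6]
        apply Real.rpow_le_rpow_of_nonpos (by positivity) _ (by linarith)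
        have : (1 : ℝ) ≤ 2 ^ j := one_le_pow₀ (by norm_num)
        linarith
      rw [e4] at e3
      refine e3.trans ?_
      gcongr
    calc u (l + j) = Real.sqrt (((l + j : ℕ) : ℝ) + j + 1) * (4 ^ (l + j) + X ^ 2) ^ (-(d / 2)) := rfl
      _ ≤ (Real.sqrt 2 * Real.sqrt (j + 1) * Real.sqrt (l + 1)) *
          ((2 ^ d * (1 + X) ^ (-d)) * ((2 : ℝ) ^ (-d)) ^ l) := by gcongr
      _ = _ := by ring
  have hu0 : ∀ m, 0 ≤ u m := fun m => by simp only [hu]; positivity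
  have hs1 : Summable (fun l => u (l + j)) :=
    Summable.of_nonneg_of_le (fun l => hu0 _) h2 (hsum.mul_left _)
  have hs : Summable u := (summable_nat_add_iff j).1 hs1
  refine ⟨hs, ?_⟩
  have h3 : ∑' l, u (l + j) ≤ Real.sqrt 2 * Real.sqrt (j + 1) * (2 ^ d * (1 + X) ^ (-d)) * S := by
    rw [hS, ← tsum_mul_left]
    exact hs1.tsum_le_tsum h2 (hsum.mul_left _)
  have h4 : ∑ m ∈ Finset.range j, u m ≤
      j * (Real.sqrt 2 * Real.sqrt (j + 1) * (2 ^ d * (1 + X) ^ (-d))) := by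
    calc ∑ m ∈ Finset.range j, u m ≤ ∑ _m ∈ Finset.range j,
        (Real.sqrt 2 * Real.sqrt (j + 1) * (2 ^ d * (1 + X) ^ (-d))) :=
          Finset.sum_le_sum fun m hm => h1 m (Finset.mem_range.1 hm)
      _ = _ := by simp
  have h5 : (j : ℝ) + S ≤ (1 + S) * (j + 1) := by
    have : (0 : ℝ) ≤ j := by positivity
    nlinarith
  have h6 : ((j : ℝ) + 1) * Real.sqrt (j + 1) = ((j : ℝ) + 1) ^ (3 / 2 : ℝ) := by
    rw [Real.sqrt_eq_rpow]
    have hj0 : (0 : ℝ) < (j : ℝ) + 1 := by positivity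
    nth_rewrite 1 [← Real.rpow_one ((j : ℝ) + 1)]
    rw [← Real.rpow_add hj0]
    norm_num
  have h7 : ((j : ℝ) + 1) ^ (3 / 2 : ℝ) ≤ 2 ^ (3 / 2 : ℝ) * (1 + Real.log (1 + X)) ^ (3 / 2 : ℝ) := by
    have h8 : 0 ≤ Real.log (1 + X) := Real.log_nonneg (by linarith)
    rw [← Real.mul_rpow (by norm_num) (by linarith)]
    exact Real.rpow_le_rpow (by positivity) (scale_log X hX j hj2) (by norm_num)
  have hh := Summable.sum_add_tsum_nat_add j hs
  calc ∑' m, u m = ∑ m ∈ Finset.range j, u m + ∑' l, u (l + j) := hh.symm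
    _ ≤ j * (Real.sqrt 2 * Real.sqrt (j + 1) * (2 ^ d * (1 + X) ^ (-d))) +
        Real.sqrt 2 * Real.sqrt (j + 1) * (2 ^ d * (1 + X) ^ (-d)) * S := add_le_add h4 h3
    _ = Real.sqrt 2 * 2 ^ d * (Real.sqrt (j + 1) * (j + S)) * (1 + X) ^ (-d) := by ring
    _ ≤ Real.sqrt 2 * 2 ^ d * (Real.sqrt (j + 1) * ((1 + S) * (j + 1))) * (1 + X) ^ (-d) := by
        gcongr
    _ = Real.sqrt 2 * 2 ^ d * (1 + S) * (((j : ℝ) + 1) * Real.sqrt (j + 1)) *
        (1 + X) ^ (-d) := by ring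
    _ ≤ Real.sqrt 2 * 2 ^ d * (1 + S) * (2 ^ (3 / 2 : ℝ) * (1 + Real.log (1 + X)) ^ (3 / 2 : ℝ)) *
        (1 + X) ^ (-d) := by
        rw [h6]
        gcongr
    _ = _ := by ring

end Pool.Agent.W5h48.RS
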