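import Mathlib
set_option autoImplicit false

/-! Sub-Gaussian tails for random sums with complex coefficients. -/

namespace Pool.Agent.W5h48.RS

open MeasureTheory ProbabilityTheory Set Complex
open scoped ENNReal NNReal

variable {Ω : Type*} [MeasurableSpace Ω] {P : Measure Ω}

theorem subG_mono {X : Ω → ℝ} {c c' : ℝ≥0} (h : HasSubgaussianMGF X c P) (hc : c ≤ c') :
    HasSubgaussianMGF X c' P where
  integrable_exp_mul := h.integrable_exp_mul
  mgf_le t := (h.mgf_le t).trans (by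
    apply Real.exp_le_exp.2
    have : (c : ℝ) ≤ c' := hc
    have h2 : 0 ≤ t ^ 2 := sq_nonneg t
    nlinarith)

theorem real_tail [IsProbabilityMeasure P] {ι : Type*} [Fintype ι] (ε : ι → Ω → ℝ)
    (hm : ∀ i, Measurable (ε i)) (hb : ∀ i ω, |ε i ω| ≤ 1) (h0 : ∀ i, ∫ ω, ε i ω ∂P = 0)
    (hind : iIndepFun ε P) (a : ι → ℝ) (V : ℝ) (ha : ∑ i, a i ^ 2 ≤ V) (t : ℝ)
    (ht : 0 ≤ t) : P.real {ω | t ≤ ∑ i, a i * ε i ω} ≤ Real.exp (-t ^ 2 / (2 * V)) := by
  have hV : 0 ≤ V := le_trans (Finset.sum_nonneg fun i _ => sq_nonneg _) ha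
  have h1 : ∀ i, HasSubgaussianMGF (fun ω => a i * ε i ω) (‖a i‖₊ ^ 2) P := by
    intro i
    have h2 : HasSubgaussianMGF (ε i) 1 P := by
      have := hasSubgaussianMGF_of_mem_Icc_of_integral_eq_zero (μ := P) (X := ε i) (a := -1)
        (b := 1) (hm i).aemeasurable
        (Filter.Eventually.of_forall fun ω => abs_le.1 (hb i ω)) (h0 i)
      convert this using 1
      norm_num
    have h3 := h2.const_mul (a i)
    refine subG_mono h3 (le_of_eq ?_)
    apply NNReal.coe_injective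
    show a i ^ 2 * 1 = ‖a i‖ ^ 2
    rw [mul_one, Real.norm_eq_abs, sq_abs]
  have hind' : iIndepFun (fun i ω => a i * ε i ω) P :=
    hind.comp (fun i x => a i * x) (fun i => measurable_const_mul (a i))
  have h4 := HasSubgaussianMGF.sum_of_iIndepFun hind' (s := Finset.univ) (fun i _ => h1 i)
  have h5 : HasSubgaussianMGF (fun ω => ∑ i, a i * ε i ω) V.toNNReal P := by
    refine subG_mono h4 ?_
    rw [← NNReal.coe_le_coe, Real.coe_toNNReal V hV]
    push_cast
    simpa using ha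
  have h6 := h5.measure_ge_le ht
  rwa [Real.coe_toNNReal V hV] at h6

theorem complex_tail [IsProbabilityMeasure P] {ι : Type*} [Fintype ι] (ε : ι → Ω → ℝ)
    (hm : ∀ i, Measurable (ε i)) (hb : ∀ i ω, |ε i ω| ≤ 1) (h0 : ∀ i, ∫ ω, ε i ω ∂P = 0)
    (hind : iIndepFun ε P) (z : ι → ℂ) (V : ℝ) (ha : ∑ i, ‖z i‖ ^ 2 ≤ V) (u : ℝ)
    (hu : 0 ≤ u) : P {ω | u ≤ ‖∑ i, (ε i ω : ℂ) * z i‖} ≤
      ENNReal.ofReal (4 * Real.exp (-u ^ 2 / (4 * V))) := by
  set t : ℝ := u / Real.sqrt 2 with ht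
  have ht0 : 0 ≤ t := by positivity
  have htt : t ^ 2 = u ^ 2 / 2 := by
    rw [ht, div_pow, Real.sq_sqrt (by norm_num)]
  have hexp : Real.exp (-t ^ 2 / (2 * V)) = Real.exp (-u ^ 2 / (4 * V)) := by
    rw [htt]
    congr 1
    rw [← neg_div, div_div]
    congr 1
    ring
  have hre : ∑ i, (z i).re ^ 2 ≤ V := by
    refine (Finset.sum_le_sum fun i _ => ?_).trans ha
    rw [Complex.sq_norm, Complex.normSq_apply]
    nlinarith [sq_nonneg (z i).im]
  have him : ∑ i, (z i).im ^ 2 ≤ V := by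
    refine (Finset.sum_le_sum fun i _ => ?_).trans ha
    rw [Complex.sq_norm, Complex.normSq_apply]
    nlinarith [sq_nonneg (z i).re]
  have e1 := real_tail ε hm hb h0 hind (fun i => (z i).re) V hre t ht0
  have e2 := real_tail ε hm hb h0 hind (fun i => -(z i).re) V (by simpa using hre) t ht0
  have e3 := real_tail ε hm hb h0 hind (fun i => (z i).im) V him t ht0
  have e4 := real_tail ε hm hb h0 hind (fun i => -(z i).im) V (by simpa using him) t ht0
  rw [hexp] at e1 e2 e3 e4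
  have hsub : {ω | u ≤ ‖∑ i, (ε i ω : ℂ) * z i‖} ⊆
      ({ω | t ≤ ∑ i, (z i).re * ε i ω} ∪ {ω | t ≤ ∑ i, -(z i).re * ε i ω}) ∪
      ({ω | t ≤ ∑ i, (z i).im * ε i ω} ∪ {ω | t ≤ ∑ i, -(z i).im * ε i ω}) := by
    intro ω hω
    simp only [mem_ofPred_eq] at hω
    set X : ℂ := ∑ i, (ε i ω : ℂ) * z i with hX
    have hr : X.re = ∑ i, (z i).re * ε i ω := by
      rw [hX, Complex.re_sum]
      refine Finset.sum_congr rfl fun i _ => ?_
      rw [Complex.re_ofReal_mul]
      ring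
    have hi : X.im = ∑ i, (z i).im * ε i ω := by
      rw [hX, Complex.im_sum]
      refine Finset.sum_congr rfl fun i _ => ?_
      rw [Complex.im_ofReal_mul]
      ring
    have hr' : -X.re = ∑ i, -(z i).re * ε i ω := by
      rw [hr, ← Finset.sum_neg_distrib]
      refine Finset.sum_congr rfl fun i _ => by ring
    have hi' : -X.im = ∑ i, -(z i).im * ε i ω := by
      rw [hi, ← Finset.sum_neg_distrib]
      refine Finset.sum_congr rfl fun i _ => by ring
    simp only [mem_union, mem_ofPred_eq]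
    rw [← hr, ← hi, ← hr', ← hi']
    by_contra hcon
    push Not at hcon
    obtain ⟨⟨c1, c2⟩, c3, c4⟩ := hcon
    have c5 : X.re ^ 2 < t ^ 2 := sq_lt_sq' (by linarith) c1
    have c6 : X.im ^ 2 < t ^ 2 := sq_lt_sq' (by linarith) c3
    have c7 : ‖X‖ ^ 2 = X.re ^ 2 + X.im ^ 2 := by
      rw [Complex.sq_norm, Complex.normSq_apply]; ring
    have c8 : u ^ 2 ≤ ‖X‖ ^ 2 := by gcongr
    nlinarith
  have conv : ∀ s : Set Ω, ∀ r : ℝ, P.real s ≤ r → P s ≤ ENNReal.ofReal r := by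
    intro s r h
    rw [← ENNReal.ofReal_toReal (measure_ne_top P s)]
    exact ENNReal.ofReal_le_ofReal h
  have hE : 0 ≤ Real.exp (-u ^ 2 / (4 * V)) := (Real.exp_pos _).le
  calc P {ω | u ≤ ‖∑ i, (ε i ω : ℂ) * z i‖}
      ≤ (P {ω | t ≤ ∑ i, (z i).re * ε i ω} + P {ω | t ≤ ∑ i, -(z i).re * ε i ω}) +
        (P {ω | t ≤ ∑ i, (z i).im * ε i ω} + P {ω | t ≤ ∑ i, -(z i).im * ε i ω}) :=
        (measure_mono hsub).trans ((measure_union_le _ _).trans
          (add_le_add (measure_union_le _ _) (measure_union_le _ _)))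
    _ ≤ (ENNReal.ofReal (Real.exp (-u ^ 2 / (4 * V))) +
          ENNReal.ofReal (Real.exp (-u ^ 2 / (4 * V)))) +
        (ENNReal.ofReal (Real.exp (-u ^ 2 / (4 * V))) +
          ENNReal.ofReal (Real.exp (-u ^ 2 / (4 * V)))) := by
        gcongr
        · exact conv _ _ e1
        · exact conv _ _ e2
        · exact conv _ _ e3
        · exact conv _ _ e4
    _ = ENNReal.ofReal (4 * Real.exp (-u ^ 2 / (4 * V))) := by
        rw [← ENNReal.ofReal_add hE hE, ← ENNReal.ofReal_add (by positivity) (by positivity)]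
        congr 1
        ring

end Pool.Agent.W5h48.RS
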