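import Mathlib
import Pool.Agent.H789R2.FR.Defs
set_option autoImplicit false

/-! The net argument. -/

namespace Pool.Agent.W5h48.RS

open MeasureTheory ProbabilityTheory Set Complex
open Pool.Agent.H789R2.FR
open scoped ENNReal NNReal

/-- the lattice points -/
noncomputable def lat (n : ℕ) (δ : ℝ) (k : Fin n → ℤ) : E n := WithLp.toLp 2 (fun i => δ * k i)

theorem lat_near (n : ℕ) (δ : ℝ) (hδ : 0 < δ) (x : E n) :
    ‖x - lat n δ (fun i => ⌊x i / δ⌋)‖ ≤ n * δ := by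
  rw [EuclideanSpace.norm_eq]
  have h1 : ∀ i, ‖(x - lat n δ (fun i => ⌊x i / δ⌋)) i‖ ^ 2 ≤ δ ^ 2 := by
    intro i
    have e1 : (x - lat n δ (fun i => ⌊x i / δ⌋)) i = x i - δ * ⌊x i / δ⌋ := rfl
    rw [e1, Real.norm_eq_abs, sq_abs]
    have h2 : (⌊x i / δ⌋ : ℝ) ≤ x i / δ := Int.floor_le _
    have h3 : x i / δ < ⌊x i / δ⌋ + 1 := Int.lt_floor_add_one _
    rw [le_div_iff₀ hδ] at h2
    rw [div_lt_iff₀ hδ] at h3
    have h4 : 0 ≤ x i - δ * ⌊x i / δ⌋ := by linarith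
    have h5 : x i - δ * ⌊x i / δ⌋ ≤ δ := by linarith
    exact pow_le_pow_left₀ h4 h5 2
  have h2 : ∑ i, ‖(x - lat n δ (fun i => ⌊x i / δ⌋)) i‖ ^ 2 ≤ n * δ ^ 2 := by
    calc ∑ i, ‖(x - lat n δ (fun i => ⌊x i / δ⌋)) i‖ ^ 2 ≤ ∑ _i : Fin n, δ ^ 2 :=
          Finset.sum_le_sum fun i _ => h1 i
      _ = n * δ ^ 2 := by simp
  have h3 : (n : ℝ) * δ ^ 2 ≤ (n * δ) ^ 2 := by
    rw [mul_pow]
    have : (n : ℝ) ≤ n ^ 2 := by
      rcases Nat.eq_zero_or_pos n with rfl | hn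
      · simp
      · have : (1 : ℝ) ≤ n := by exact_mod_cast hn
        nlinarith
    gcongr
  calc Real.sqrt (∑ i, ‖(x - lat n δ (fun i => ⌊x i / δ⌋)) i‖ ^ 2)
      ≤ Real.sqrt ((n * δ) ^ 2) := Real.sqrt_le_sqrt (h2.trans h3)
    _ = n * δ := Real.sqrt_sq (by positivity)

/-- the index set of the net -/
noncomputable def box (n : ℕ) (L : ℕ) : Finset (Fin n → ℤ) := Fintype.piFinset (fun _ => Finset.Icc (-(L : ℤ)) L)

theorem box_card (n L : ℕ) : (box n L).card = (2 * L + 1) ^ n := by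
  unfold box
  rw [Fintype.card_piFinset]
  simp only [Int.card_Icc, Finset.prod_const, Finset.card_univ, Fintype.card_fin]
  congr 1
  omega

/-- side length -/
noncomputable def dl (n m j : ℕ) : ℝ := ((2 : ℝ) ^ (n * (m + j)))⁻¹

theorem dl_pos (n m j : ℕ) : 0 < dl n m j := by unfold dl; positivity

theorem mem_box (n m j : ℕ) (x : E n) (hx : ‖x‖ ≤ 2 ^ j) :
    (fun i => ⌊x i / dl n m j⌋) ∈ box n (2 ^ (j + n * (m + j))) := by
  unfold box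
  rw [Fintype.mem_piFinset]
  intro i
  rw [Finset.mem_Icc]
  have h1 : |x i| ≤ 2 ^ j := (by
    have := EuclideanSpace.norm_eq x
    have h2 : ‖x i‖ ≤ ‖x‖ := PiLp.norm_apply_le x i
    rw [Real.norm_eq_abs] at h2
    exact h2.trans hx)
  rw [abs_le] at h1
  have h2 : x i / dl n m j = x i * 2 ^ (n * (m + j)) := by
    unfold dl
    rw [div_inv_eq_mul]
  have hp : (0 : ℝ) < 2 ^ (n * (m + j)) := by positivity
  rw [h2]
  constructor
  · rw [Int.le_floor]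
    push_cast
    rw [pow_add]
    nlinarith
  · have : (⌊x i * 2 ^ (n * (m + j))⌋ : ℝ) ≤ x i * 2 ^ (n * (m + j)) := Int.floor_le _
    have h3 : (⌊x i * 2 ^ (n * (m + j))⌋ : ℝ) ≤ 2 ^ (j + n * (m + j)) := by
      rw [pow_add]
      nlinarith
    exact_mod_cast h3

/-- the constant of the net argument -/
noncomputable def cN (n : ℕ) : ℝ :=
  (2 + 2 * (n : ℝ) ^ 2) ^ (((n : ℝ) - 1) / 2 / 2) + n * 2 ^ (((n : ℝ) - 1) / 2 / 2)

theorem count (n m j : ℕ) (Λ : ℝ) (hΛ : 8 * ((n : ℝ) + 1) * (n + 2) ≤ Λ ^ 2) :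
    ((2 * (2 ^ (j + n * (m + j)) : ℕ) + 1 : ℕ) : ℝ) ^ n *
      (4 * Real.exp (-(Λ ^ 2 * (m + j + 1)) / 4)) ≤ Real.exp (-(Λ ^ 2) / 8) ^ (m + j + 1) := by
  have h1 : ((2 * (2 ^ (j + n * (m + j)) : ℕ) + 1 : ℕ) : ℝ) ≤ 2 ^ (2 + j + n * (m + j)) := by
    push_cast
    have : (1 : ℝ) ≤ 2 ^ (j + n * (m + j)) := one_le_pow₀ (by norm_num)
    have h2 : (2 : ℝ) ^ (2 + j + n * (m + j)) = 4 * 2 ^ (j + n * (m + j)) := by
      rw [add_assoc, pow_add]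
      norm_num
    rw [h2]
    linarith
  have h2 : ((2 * (2 ^ (j + n * (m + j)) : ℕ) + 1 : ℕ) : ℝ) ^ n * 4 ≤
      Real.exp ((((2 + j + n * (m + j)) * n + 2 : ℕ) : ℝ)) := by
    calc ((2 * (2 ^ (j + n * (m + j)) : ℕ) + 1 : ℕ) : ℝ) ^ n * 4
        ≤ ((2 : ℝ) ^ (2 + j + n * (m + j))) ^ n * 4 := by gcongr
      _ = 2 ^ ((2 + j + n * (m + j)) * n + 2) := by
          rw [← pow_mul, pow_add]
          norm_num
      _ ≤ (Real.exp 1) ^ ((2 + j + n * (m + j)) * n + 2) := by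
          gcongr
          have := Real.add_one_le_exp (1 : ℝ)
          linarith
      _ = _ := by
          rw [← Real.exp_nat_mul, mul_one]
  have h3 : ((((2 + j + n * (m + j)) * n + 2 : ℕ) : ℝ)) ≤ (n + 1) * (n + 2) * (m + j + 1) := by
    have : (2 + j + n * (m + j)) * n + 2 ≤ (n + 1) * (n + 2) * (m + j + 1) := by nlinarith
    exact_mod_cast this
  calc ((2 * (2 ^ (j + n * (m + j)) : ℕ) + 1 : ℕ) : ℝ) ^ n *
      (4 * Real.exp (-(Λ ^ 2 * (m + j + 1)) / 4))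
      = ((2 * (2 ^ (j + n * (m + j)) : ℕ) + 1 : ℕ) : ℝ) ^ n * 4 *
        Real.exp (-(Λ ^ 2 * (m + j + 1)) / 4) := by ring
    _ ≤ Real.exp ((((2 + j + n * (m + j)) * n + 2 : ℕ) : ℝ)) *
        Real.exp (-(Λ ^ 2 * (m + j + 1)) / 4) := by gcongr
    _ ≤ Real.exp ((n + 1) * (n + 2) * (m + j + 1)) *
        Real.exp (-(Λ ^ 2 * (m + j + 1)) / 4) := by gcongr
    _ ≤ Real.exp (-(Λ ^ 2) / 8) ^ (m + j + 1) := by
        rw [← Real.exp_add, ← Real.exp_nat_mul]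
        apply Real.exp_le_exp.2
        push_cast
        have : (0 : ℝ) ≤ m + j + 1 := by positivity
        nlinarith

/-- the bad event -/
def bad {n : ℕ} {Ω : Type*} (F : ℕ → E n → Ω → ℂ) (K Λ : ℝ) : Set Ω :=
  {ω | ¬ ∀ (m j : ℕ) (x : E n), ‖x‖ ≤ 2 ^ j → ‖F m x ω‖ ≤ cN n * K * Λ *
    Real.sqrt (m + j + 1) * (4 ^ m + ‖x‖ ^ 2) ^ (-(((n : ℝ) - 1) / 2 / 2))}

/-- the threshold at a point -/
noncomputable def thr (n : ℕ) (K Λ : ℝ) (m j : ℕ) (x : E n) : ℝ :=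
  K * Λ * Real.sqrt (m + j + 1) * (4 ^ m + ‖x‖ ^ 2) ^ (-(((n : ℝ) - 1) / 2 / 2))

theorem good (n : ℕ) (hn : 1 ≤ n) {Ω : Type*} (F : ℕ → E n → Ω → ℂ) (K Λ : ℝ) (hK : 0 < K)
    (hΛ : 1 ≤ Λ) (hL : ∀ m x x' ω, ‖F m x ω - F m x' ω‖ ≤ K * ‖x - x'‖) (ω : Ω)
    (h : ∀ m j, ∀ k ∈ box n (2 ^ (j + n * (m + j))),
      ‖F m (lat n (dl n m j) k) ω‖ < thr n K Λ m j (lat n (dl n m j) k)) : ω ∉ bad F K Λ := by
  unfold bad
  simp only [mem_ofPred_eq, not_not]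
  intro m j x hx
  set d : ℝ := ((n : ℝ) - 1) / 2 with hd
  have hn1 : (1 : ℝ) ≤ n := by exact_mod_cast hn
  have hd0 : 0 ≤ d := by simp only [hd]; linarith
  have hdn : d ≤ n := by simp only [hd]; linarith
  set δ : ℝ := dl n m j with hδ
  have hδ0 : 0 < δ := dl_pos n m j
  set k : Fin n → ℤ := fun i => ⌊x i / δ⌋ with hk
  set p : E n := lat n δ k with hp
  have h1 := h m j k (mem_box n m j x hx)
  have h2 : ‖x - p‖ ≤ n * δ := lat_near n δ hδ0 x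
  have h3 := hL m x p ω
  have hδ1 : δ ≤ 1 := by
    simp only [hδ, dl]
    exact inv_le_one_of_one_le₀ (one_le_pow₀ (by norm_num))
  have h4m : (1 : ℝ) ≤ 4 ^ m := one_le_pow₀ (by norm_num)
  -- comparison of the weights
  have h4 : 4 ^ m + ‖x‖ ^ 2 ≤ (2 + 2 * (n : ℝ) ^ 2) * (4 ^ m + ‖p‖ ^ 2) := by
    have e1 : ‖x‖ ≤ ‖p‖ + n := by
      calc ‖x‖ = ‖p + (x - p)‖ := by congr 1; abel
        _ ≤ ‖p‖ + ‖x - p‖ := norm_add_le _ _
        _ ≤ ‖p‖ + n := by nlinarith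
    have e2 : ‖x‖ ^ 2 ≤ 2 * ‖p‖ ^ 2 + 2 * n ^ 2 := by
      have : ‖x‖ ^ 2 ≤ (‖p‖ + n) ^ 2 := by gcongr
      nlinarith [sq_nonneg (‖p‖ - n)]
    have e3 : (2 : ℝ) * n ^ 2 ≤ 2 * n ^ 2 * 4 ^ m := le_mul_of_one_le_right (by positivity) h4m
    have e4 : 0 ≤ 2 * (n : ℝ) ^ 2 * ‖p‖ ^ 2 := by positivity
    nlinarith
  have hpos : ∀ z : E n, 0 < (4 : ℝ) ^ m + ‖z‖ ^ 2 := fun z => by positivity
  have h5 : (4 ^ m + ‖p‖ ^ 2) ^ (-(d / 2)) ≤
      (2 + 2 * (n : ℝ) ^ 2) ^ (d / 2) * (4 ^ m + ‖x‖ ^ 2) ^ (-(d / 2)) := by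
    have e1 : (2 + 2 * (n : ℝ) ^ 2) ^ (d / 2) * (4 ^ m + ‖x‖ ^ 2) ^ (-(d / 2)) =
        ((4 ^ m + ‖x‖ ^ 2) / (2 + 2 * (n : ℝ) ^ 2)) ^ (-(d / 2)) := by
      rw [Real.div_rpow (hpos x).le (by positivity),
        Real.rpow_neg (by positivity : (0:ℝ) ≤ 2 + 2 * (n : ℝ) ^ 2)]
      field_simp
    rw [e1]
    apply Real.rpow_le_rpow_of_nonpos (by have := hpos x; positivity) _ (by linarith)
    rw [div_le_iff₀ (by positivity)]
    linarith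
  have h6 : δ ≤ 2 ^ (d / 2) * (4 ^ m + ‖x‖ ^ 2) ^ (-(d / 2)) := by
    have e1 : 4 ^ m + ‖x‖ ^ 2 ≤ 2 * ((2 : ℝ) ^ (m + j)) ^ 2 := by
      have e2 : ‖x‖ ^ 2 ≤ (2 ^ j) ^ 2 := by gcongr
      have e3 : ((2 : ℝ) ^ (m + j)) ^ 2 = 4 ^ m * 4 ^ j := by
        rw [pow_add, mul_pow, ← pow_mul, ← pow_mul, mul_comm m 2, mul_comm j 2, pow_mul, pow_mul]
        norm_num
      have e4 : ((2 : ℝ) ^ j) ^ 2 = 4 ^ j := by
        rw [← pow_mul, mul_comm j 2, pow_mul]; norm_num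
      have e5 : (1 : ℝ) ≤ 4 ^ j := one_le_pow₀ (by norm_num)
      rw [e3]
      rw [e4] at e2
      nlinarith
    have e2 : (2 * ((2 : ℝ) ^ (m + j)) ^ 2) ^ (-(d / 2)) ≤ (4 ^ m + ‖x‖ ^ 2) ^ (-(d / 2)) :=
      Real.rpow_le_rpow_of_nonpos (hpos x) e1 (by linarith)
    have e3 : (2 * ((2 : ℝ) ^ (m + j)) ^ 2) ^ (-(d / 2)) =
        (2 ^ (d / 2))⁻¹ * ((2 : ℝ) ^ (m + j)) ^ (-d) := by
      rw [Real.mul_rpow (by norm_num) (by positivity), Real.rpow_neg (by norm_num), ← Real.rpow_natCast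
        ((2 : ℝ) ^ (m + j)) 2, ← Real.rpow_mul (by positivity)]
      congr 2
      push_cast
      ring
    have e4 : δ ≤ ((2 : ℝ) ^ (m + j)) ^ (-d) := by
      have : δ = ((2 : ℝ) ^ (m + j)) ^ (-(n : ℝ)) := by
        rw [Real.rpow_neg (by positivity), Real.rpow_natCast, ← pow_mul, mul_comm (m + j) n]
        rfl
      rw [this]
      apply Real.rpow_le_rpow_of_exponent_le (one_le_pow₀ (by norm_num))
      linarith
    have hpp : (0 : ℝ) < 2 ^ (d / 2) := by positivity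
    calc δ ≤ ((2 : ℝ) ^ (m + j)) ^ (-d) := e4
      _ = 2 ^ (d / 2) * (2 * ((2 : ℝ) ^ (m + j)) ^ 2) ^ (-(d / 2)) := by
          rw [e3]; field_simp
      _ ≤ _ := by gcongr
  have h7 : 1 ≤ Λ * Real.sqrt (m + j + 1) := by
    have : 1 ≤ Real.sqrt (m + j + 1) := by
      rw [Real.one_le_sqrt]
      have : (0 : ℝ) ≤ m + j := by positivity
      linarith
    nlinarith
  have hQ : 0 < (4 ^ m + ‖x‖ ^ 2) ^ (-(d / 2)) := by have := hpos x; positivity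
  calc ‖F m x ω‖ = ‖F m p ω + (F m x ω - F m p ω)‖ := by congr 1; ring
    _ ≤ ‖F m p ω‖ + ‖F m x ω - F m p ω‖ := norm_add_le _ _
    _ ≤ thr n K Λ m j p + K * (n * δ) := by
        refine add_le_add h1.le (h3.trans ?_)
        gcongr
    _ ≤ K * Λ * Real.sqrt (m + j + 1) * ((2 + 2 * (n : ℝ) ^ 2) ^ (d / 2) *
          (4 ^ m + ‖x‖ ^ 2) ^ (-(d / 2))) +
        K * (n * (2 ^ (d / 2) * (4 ^ m + ‖x‖ ^ 2) ^ (-(d / 2)))) := by
        unfold thr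
        gcongr
    _ ≤ K * Λ * Real.sqrt (m + j + 1) * ((2 + 2 * (n : ℝ) ^ 2) ^ (d / 2) *
          (4 ^ m + ‖x‖ ^ 2) ^ (-(d / 2))) +
        (Λ * Real.sqrt (m + j + 1)) * (K * (n * (2 ^ (d / 2) *
          (4 ^ m + ‖x‖ ^ 2) ^ (-(d / 2))))) := by
        have : 0 ≤ K * (n * (2 ^ (d / 2) * (4 ^ m + ‖x‖ ^ 2) ^ (-(d / 2)))) := by positivity
        nlinarith
    _ = _ := by
        unfold cN
        ring

theorem net (n : ℕ) (hn : 1 ≤ n) {Ω : Type*} [MeasurableSpace Ω] (P : Measure Ω)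
    [IsProbabilityMeasure P] (F : ℕ → E n → Ω → ℂ) (K Λ : ℝ) (hK : 0 < K)
    (hΛ : 1 ≤ Λ) (hΛ2 : 8 * ((n : ℝ) + 1) * (n + 2) ≤ Λ ^ 2)
    (hL : ∀ m x x' ω, ‖F m x ω - F m x' ω‖ ≤ K * ‖x - x'‖)
    (hV : ∀ m x u, 0 ≤ u → P {ω | u ≤ ‖F m x ω‖} ≤
      ENNReal.ofReal (4 * Real.exp (-u ^ 2 /
        (4 * (K ^ 2 * (4 ^ m + ‖x‖ ^ 2) ^ (-(((n : ℝ) - 1) / 2))))))) :
    P (bad F K Λ) ≤ ENNReal.ofReal (Real.exp (-(Λ ^ 2) / 16)) := by
  set d : ℝ := ((n : ℝ) - 1) / 2 with hd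
  have hpt : ∀ m j x, P {ω | thr n K Λ m j x ≤ ‖F m x ω‖} ≤
      ENNReal.ofReal (4 * Real.exp (-(Λ ^ 2 * (m + j + 1)) / 4)) := by
    intro m j x
    have hpos : 0 < (4 : ℝ) ^ m + ‖x‖ ^ 2 := by positivity
    have h0 : 0 ≤ thr n K Λ m j x := by unfold thr; positivity
    refine (hV m x _ h0).trans (ENNReal.ofReal_le_ofReal ?_)
    have e1 : thr n K Λ m j x ^ 2 = K ^ 2 * Λ ^ 2 * (m + j + 1) *
        (4 ^ m + ‖x‖ ^ 2) ^ (-d) := by
      unfold thr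
      rw [mul_pow, mul_pow, mul_pow, Real.sq_sqrt (by positivity)]
      congr 1
      rw [← Real.rpow_natCast, ← Real.rpow_mul hpos.le]
      congr 1
      push_cast
      ring
    rw [e1]
    apply le_of_eq
    congr 2
    have : 0 < (4 ^ m + ‖x‖ ^ 2) ^ (-d) := by positivity
    field_simp
  have hsub : bad F K Λ ⊆ ⋃ m, ⋃ j, ⋃ k ∈ box n (2 ^ (j + n * (m + j))),
      {ω | thr n K Λ m j (lat n (dl n m j) k) ≤ ‖F m (lat n (dl n m j) k) ω‖} := by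
    intro ω hω
    by_contra hcon
    simp only [mem_iUnion, mem_ofPred_eq, not_exists, not_le] at hcon
    exact good n hn F K Λ hK hΛ hL ω (fun m j k hk => hcon m j k hk) hω
  set r : ℝ := Real.exp (-(Λ ^ 2) / 8) with hr
  have hr0 : 0 < r := Real.exp_pos _
  set a : ℝ≥0∞ := ENNReal.ofReal r with ha
  have hone : ∀ m j : ℕ, P (⋃ k ∈ box n (2 ^ (j + n * (m + j))),
      {ω | thr n K Λ m j (lat n (dl n m j) k) ≤ ‖F m (lat n (dl n m j) k) ω‖}) ≤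
      a * a ^ m * a ^ j := by
    intro m j
    calc P (⋃ k ∈ box n (2 ^ (j + n * (m + j))),
      {ω | thr n K Λ m j (lat n (dl n m j) k) ≤ ‖F m (lat n (dl n m j) k) ω‖})
        ≤ ∑ k ∈ box n (2 ^ (j + n * (m + j))),
          P {ω | thr n K Λ m j (lat n (dl n m j) k) ≤ ‖F m (lat n (dl n m j) k) ω‖} :=
          measure_biUnion_finset_le _ _
      _ ≤ ∑ k ∈ box n (2 ^ (j + n * (m + j))),
          ENNReal.ofReal (4 * Real.exp (-(Λ ^ 2 * (m + j + 1)) / 4)) :=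
          Finset.sum_le_sum fun k _ => hpt m j _
      _ = ((2 * (2 ^ (j + n * (m + j)) : ℕ) + 1 : ℕ) : ℝ≥0∞) ^ n *
          ENNReal.ofReal (4 * Real.exp (-(Λ ^ 2 * (m + j + 1)) / 4)) := by
          rw [Finset.sum_const, box_card, nsmul_eq_mul]
          push_cast
          rfl
      _ = ENNReal.ofReal (((2 * (2 ^ (j + n * (m + j)) : ℕ) + 1 : ℕ) : ℝ) ^ n *
          (4 * Real.exp (-(Λ ^ 2 * (m + j + 1)) / 4))) := by
          have e0 : ENNReal.ofReal (((2 * (2 ^ (j + n * (m + j)) : ℕ) + 1 : ℕ) : ℝ) ^ n) =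
              ((2 * (2 ^ (j + n * (m + j)) : ℕ) + 1 : ℕ) : ℝ≥0∞) ^ n := by
            rw [ENNReal.ofReal_pow (by positivity), ENNReal.ofReal_natCast]
          rw [← e0, ← ENNReal.ofReal_mul (by positivity)]
      _ ≤ ENNReal.ofReal (r ^ (m + j + 1)) := ENNReal.ofReal_le_ofReal (count n m j Λ hΛ2)
      _ = a * a ^ m * a ^ j := by
          rw [ENNReal.ofReal_pow hr0.le, ← ha]
          ring
  have hrs : Real.exp (-(Λ ^ 2) / 16) ≤ 1 / 4 := by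
    have h1 : (0 : ℝ) ≤ n := by positivity
    have h2 : (16 : ℝ) ≤ Λ ^ 2 := by nlinarith
    have h1' : (1 : ℝ) ≤ n := by exact_mod_cast hn
    have h3 : (48 : ℝ) ≤ Λ ^ 2 := by nlinarith
    have h4 : Real.exp (-(Λ ^ 2) / 16) ≤ Real.exp (-3) := by
      apply Real.exp_le_exp.2
      linarith
    have h5 : Real.exp (-3 : ℝ) ≤ 1 / 4 := by
      rw [Real.exp_neg, one_div]
      apply inv_anti₀ (by norm_num)
      have := Real.add_one_le_exp (3 : ℝ)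
      linarith
    linarith
  have hrr : r = Real.exp (-(Λ ^ 2) / 16) * Real.exp (-(Λ ^ 2) / 16) := by
    rw [hr, ← Real.exp_add]
    congr 1
    ring
  have hq0 : 0 < Real.exp (-(Λ ^ 2) / 16) := Real.exp_pos _
  have hr2 : r ≤ 1 / 2 := by
    rw [hrr]
    nlinarith
  have ha2 : a ≤ 1 / 2 := by
    rw [ha]
    calc ENNReal.ofReal r ≤ ENNReal.ofReal (1 / 2) := ENNReal.ofReal_le_ofReal hr2
      _ = 1 / 2 := by
          rw [ENNReal.ofReal_div_of_pos (by norm_num)]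
          simp
  have hinv : (1 - a)⁻¹ ≤ 2 := by
    have : (1 : ℝ≥0∞) / 2 ≤ 1 - a := by
      calc (1 : ℝ≥0∞) / 2 = 1 - 1 / 2 := by
            rw [one_div, ENNReal.one_sub_inv_two]
        _ ≤ 1 - a := tsub_le_tsub_left ha2 _
    calc (1 - a)⁻¹ ≤ (1 / 2)⁻¹ := ENNReal.inv_le_inv.2 this
      _ = 2 := by simp
  calc P (bad F K Λ) ≤ P (⋃ m, ⋃ j, ⋃ k ∈ box n (2 ^ (j + n * (m + j))),
      {ω | thr n K Λ m j (lat n (dl n m j) k) ≤ ‖F m (lat n (dl n m j) k) ω‖}) :=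
        measure_mono hsub
    _ ≤ ∑' m : ℕ, ∑' j : ℕ, a * a ^ m * a ^ j := by
        refine (measure_iUnion_le _).trans (ENNReal.tsum_le_tsum fun m => ?_)
        exact (measure_iUnion_le _).trans (ENNReal.tsum_le_tsum fun j => hone m j)
    _ = a * (1 - a)⁻¹ * (1 - a)⁻¹ := by
        simp_rw [ENNReal.tsum_mul_left, ENNReal.tsum_mul_right, ENNReal.tsum_mul_left,
          ENNReal.tsum_geometric]
    _ ≤ a * 2 * 2 := by gcongr
    _ = ENNReal.ofReal (r * 2 * 2) := by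
        rw [ENNReal.ofReal_mul (by positivity), ENNReal.ofReal_mul hr0.le]
        simp [ha]
    _ ≤ ENNReal.ofReal (Real.exp (-(Λ ^ 2) / 16)) := by
        apply ENNReal.ofReal_le_ofReal
        rw [hrr]
        nlinarith

end Pool.Agent.W5h48.RS
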