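import Mathlib
import Pool.Agent.W5h48.RS.K4
set_option autoImplicit false

/-! Smoothing tends to the identity, on the Fourier side. -/

namespace Pool.Agent.W5h48.RS

open MeasureTheory Measure Set Metric Complex Filter Topology
open Pool.Agent.H789R2.FR
open scoped ENNReal RealInnerProductSpace

theorem exp_diff {n : ℕ} (x w w' : E n) :
    ‖Complex.exp (-((⟪x, w⟫ : ℝ) : ℂ) * I) - Complex.exp (-((⟪x, w'⟫ : ℝ) : ℂ) * I)‖ ≤
      ‖x‖ * ‖w - w'‖ := by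
  have e1 : Complex.exp (-((⟪x, w⟫ : ℝ) : ℂ) * I) - Complex.exp (-((⟪x, w'⟫ : ℝ) : ℂ) * I) =
      Complex.exp (-((⟪x, w'⟫ : ℝ) : ℂ) * I) *
        (Complex.exp (I * ((-⟪x, w - w'⟫ : ℝ) : ℂ)) - 1) := by
    rw [mul_sub, mul_one, ← Complex.exp_add, inner_sub_right]
    congr 2
    push_cast
    ring
  rw [e1, norm_mul, kern_norm, one_mul]
  refine (Real.norm_exp_I_mul_ofReal_sub_one_le).trans ?_
  rw [norm_neg, Real.norm_eq_abs]
  exact abs_real_inner_le_norm _ _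

theorem t_exp (R t : ℝ) (hR : 0 < R) (ht : 0 ≤ t) :
    t * Real.exp (-(R / 2) * t ^ 2) ≤ R ^ (-(1 / 2) : ℝ) * Real.exp (-((R / 2) / 2) * t ^ 2) := by
  have h1 : Real.exp (-(R / 2) * t ^ 2) =
      Real.exp (-((R / 2) / 2) * t ^ 2) * Real.exp (-((R / 2) / 2) * t ^ 2) := by
    rw [← Real.exp_add]
    congr 1
    ring
  rw [h1, ← mul_assoc]
  apply mul_le_mul_of_nonneg_right _ (Real.exp_pos _).le
  rw [Real.rpow_neg hR.le, ← Real.sqrt_eq_rpow]
  set s : ℝ := Real.sqrt R * t with hs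
  have hsq : s ^ 2 = R * t ^ 2 := by rw [hs, mul_pow, Real.sq_sqrt hR.le]
  have h2 : s ≤ Real.exp (s ^ 2 / 4) := by
    have := Real.add_one_le_exp (s ^ 2 / 4)
    nlinarith [sq_nonneg (1 - s / 2)]
  have h3 : 0 < Real.sqrt R := Real.sqrt_pos.2 hR
  have h4 : Real.exp (-((R / 2) / 2) * t ^ 2) = (Real.exp (s ^ 2 / 4))⁻¹ := by
    rw [← Real.exp_neg, hsq]
    congr 1
    ring
  rw [h4, ← div_eq_mul_inv, div_le_iff₀ (Real.exp_pos _)]
  rw [← div_eq_inv_mul, le_div_iff₀ h3]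
  linarith

theorem repro (n : ℕ) (hn : 2 ≤ n) : ∃ C : ℝ, 0 < C ∧ ∀ h : E n → ℂ, Measurable h →
    ∀ M : ℝ, (∀ x, ‖h x‖ ≤ M) → ∀ R : ℝ, 1 ≤ R → ∀ x : E n,
    ‖T (A R h) x - T h x‖ ≤ C * M * ‖x‖ * R ^ (-(1 / 2) : ℝ) := by
  obtain ⟨c, hc, hL⟩ := D_lower n hn
  obtain ⟨C2, hC2, hU⟩ := D_upper n hn
  obtain ⟨y, hy⟩ := exists_unit n hn
  have := sg_finite n
  set d : ℝ := ((n : ℝ) - 1) / 2 with hd
  have h3 : -((n : ℝ) - 1) / 2 = -d := by simp only [hd]; ring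
  rw [h3] at hL hU
  set t : ℝ := (sg n).real univ with ht
  refine ⟨(C2 * 2 ^ d / c) * (t + 1), by positivity, fun h hh M hM R hR x => ?_⟩
  have hR0 : 0 < R := by linarith
  have hM0 : 0 ≤ M := (norm_nonneg _).trans (hM 0)
  have hDy := D_pos n hn R hR y hy
  -- the kernel is close to the exponential
  have hker : ∀ w' : E n, ‖w'‖ = 1 →
      ‖KI R x w' / (D R y : ℂ) - Complex.exp (-((⟪x, w'⟫ : ℝ) : ℂ) * I)‖ ≤
        (C2 * 2 ^ d / c) * ‖x‖ * R ^ (-(1 / 2) : ℝ) := by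
    intro w' hw'
    have hDD : D R y = D R w' := D_const R y w' hy hw'
    have hDc : (D R w' : ℂ) = ∫ w, ((Real.exp (-(R / 2) * ‖w - w'‖ ^ 2) : ℝ) : ℂ) ∂(sg n) := by
      unfold D
      have : ((∫ w, Real.exp (-(R / 2) * ‖w' - w‖ ^ 2) ∂(sg n) : ℝ) : ℂ) =
        ∫ w, ((Real.exp (-(R / 2) * ‖w' - w‖ ^ 2) : ℝ) : ℂ) ∂(sg n) := integral_ofReal.symm
      rw [this]
      simp_rw [norm_sub_rev w']
    have hi1 : Integrable (fun w : E n => Complex.exp (-((⟪x, w⟫ : ℝ) : ℂ) * I) *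
        ((Real.exp (-(R / 2) * ‖w - w'‖ ^ 2) : ℝ) : ℂ)) (sg n) := by
      refine Integrable.of_bound (Continuous.aestronglyMeasurable (by fun_prop)) 1
        (Filter.Eventually.of_forall fun w => ?_)
      rw [norm_mul, kern_norm, one_mul, Complex.norm_real, Real.norm_of_nonneg (Real.exp_pos _).le]
      exact w_le R hR0.le w w'
    have hi2 : Integrable (fun w : E n => Complex.exp (-((⟪x, w'⟫ : ℝ) : ℂ) * I) *
        ((Real.exp (-(R / 2) * ‖w - w'‖ ^ 2) : ℝ) : ℂ)) (sg n) := by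
      refine Integrable.of_bound (Continuous.aestronglyMeasurable (by fun_prop)) 1
        (Filter.Eventually.of_forall fun w => ?_)
      rw [norm_mul, kern_norm, one_mul, Complex.norm_real, Real.norm_of_nonneg (Real.exp_pos _).le]
      exact w_le R hR0.le w w'
    have e1 : KI R x w' - Complex.exp (-((⟪x, w'⟫ : ℝ) : ℂ) * I) * (D R w' : ℂ) =
        ∫ w, (Complex.exp (-((⟪x, w⟫ : ℝ) : ℂ) * I) - Complex.exp (-((⟪x, w'⟫ : ℝ) : ℂ) * I)) *
          ((Real.exp (-(R / 2) * ‖w - w'‖ ^ 2) : ℝ) : ℂ) ∂(sg n) := by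
      unfold KI
      rw [hDc, ← integral_const_mul, ← integral_sub hi1 hi2]
      congr 1
      ext w
      ring
    have e2 : ‖KI R x w' - Complex.exp (-((⟪x, w'⟫ : ℝ) : ℂ) * I) * (D R w' : ℂ)‖ ≤
        ‖x‖ * R ^ (-(1 / 2) : ℝ) * D (R / 2) w' := by
      rw [e1]
      unfold D
      rw [← integral_const_mul]
      apply norm_integral_le_of_norm_le
      · exact (w_integrable (R / 2) (by positivity) w').const_mul _
      · filter_upwards with w
        rw [norm_mul, Complex.norm_real, Real.norm_of_nonneg (Real.exp_pos _).le]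
        calc ‖Complex.exp (-((⟪x, w⟫ : ℝ) : ℂ) * I) - Complex.exp (-((⟪x, w'⟫ : ℝ) : ℂ) * I)‖ *
              Real.exp (-(R / 2) * ‖w - w'‖ ^ 2)
            ≤ (‖x‖ * ‖w - w'‖) * Real.exp (-(R / 2) * ‖w - w'‖ ^ 2) := by
              have := exp_diff x w w'
              gcongr
          _ = ‖x‖ * (‖w - w'‖ * Real.exp (-(R / 2) * ‖w - w'‖ ^ 2)) := by ring
          _ ≤ ‖x‖ * (R ^ (-(1 / 2) : ℝ) * Real.exp (-((R / 2) / 2) * ‖w - w'‖ ^ 2)) := by
              have := t_exp R ‖w - w'‖ hR0 (norm_nonneg _)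
              gcongr
          _ = _ := by rw [norm_sub_rev w w']; ring
    have e3 := hL R hR y hy
    have e4 := hU (R / 2) (by positivity) w' hw'
    have e5 : (R / 2) ^ (-d) = 2 ^ d * R ^ (-d) := by
      rw [Real.div_rpow hR0.le (by norm_num), Real.rpow_neg (by norm_num : (0:ℝ) ≤ 2)]
      field_simp
    have hDne : (D R y : ℂ) ≠ 0 := by exact_mod_cast hDy.ne'
    have e6 : KI R x w' / (D R y : ℂ) - Complex.exp (-((⟪x, w'⟫ : ℝ) : ℂ) * I) =
        (KI R x w' - Complex.exp (-((⟪x, w'⟫ : ℝ) : ℂ) * I) * (D R w' : ℂ)) / (D R y : ℂ) := by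
      rw [← hDD]
      field_simp
    rw [e6, norm_div, Complex.norm_real, Real.norm_of_nonneg hDy.le, div_le_iff₀ hDy]
    calc ‖KI R x w' - Complex.exp (-((⟪x, w'⟫ : ℝ) : ℂ) * I) * (D R w' : ℂ)‖
        ≤ ‖x‖ * R ^ (-(1 / 2) : ℝ) * D (R / 2) w' := e2
      _ ≤ ‖x‖ * R ^ (-(1 / 2) : ℝ) * (C2 * (2 ^ d * R ^ (-d))) := by
          rw [← e5]
          gcongr
      _ = (C2 * 2 ^ d / c) * ‖x‖ * R ^ (-(1 / 2) : ℝ) * (c * R ^ (-d)) := by
          field_simp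
      _ ≤ _ := by gcongr
  have hKc := KI_cont n R hR0.le x
  have hKb : ∀ w, ‖KI R x w‖ ≤ t := by
    intro w
    unfold KI
    calc ‖∫ v, Complex.exp (-((⟪x, v⟫ : ℝ) : ℂ) * I) *
          ((Real.exp (-(R / 2) * ‖v - w‖ ^ 2) : ℝ) : ℂ) ∂(sg n)‖ ≤ 1 * (sg n).real univ := by
          refine norm_integral_le_of_norm_le_const ?_
          filter_upwards with v
          rw [norm_mul, kern_norm, one_mul, Complex.norm_real,
            Real.norm_of_nonneg (Real.exp_pos _).le]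
          exact w_le R hR0.le v w
      _ = t := by rw [one_mul]
  have hi1 : Integrable (fun w' => h w' * (KI R x w' / (D R y : ℂ))) (sg n) := by
    refine Integrable.of_bound (hh.mul (hKc.measurable.div_const _)).aestronglyMeasurable
      (M * (t / D R y)) (Filter.Eventually.of_forall fun w => ?_)
    rw [norm_mul, norm_div, Complex.norm_real, Real.norm_of_nonneg hDy.le]
    have h1 := hKb w
    have h2 := hM w
    gcongr
  rw [T_A_eq n hn h hh M hM R hR x y hy, T]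
  have e7 : ∫ w', h w' * ((∫ w, Complex.exp (-((⟪x, w⟫ : ℝ) : ℂ) * I) *
      ((Real.exp (-(R / 2) * ‖w - w'‖ ^ 2) : ℝ) : ℂ) ∂(sg n)) / (D R y : ℂ)) ∂(sg n) =
      ∫ w', h w' * (KI R x w' / (D R y : ℂ)) ∂(sg n) := rfl
  rw [e7, ← integral_sub hi1 (T_integrable hh hM x)]
  calc ‖∫ w', (h w' * (KI R x w' / (D R y : ℂ)) -
        Complex.exp (-((⟪x, w'⟫ : ℝ) : ℂ) * I) * h w') ∂(sg n)‖
      ≤ (M * ((C2 * 2 ^ d / c) * ‖x‖ * R ^ (-(1 / 2) : ℝ))) * (sg n).real univ := by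
        refine norm_integral_le_of_norm_le_const ?_
        filter_upwards [sg_ae n] with w hw
        have e8 : h w * (KI R x w / (D R y : ℂ)) -
            Complex.exp (-((⟪x, w⟫ : ℝ) : ℂ) * I) * h w =
            h w * (KI R x w / (D R y : ℂ) - Complex.exp (-((⟪x, w⟫ : ℝ) : ℂ) * I)) := by ring
        rw [e8, norm_mul]
        exact mul_le_mul (hM w) (hker w hw) (norm_nonneg _) hM0
    _ ≤ (M * ((C2 * 2 ^ d / c) * ‖x‖ * R ^ (-(1 / 2) : ℝ))) * (t + 1) := by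
        gcongr
        linarith
    _ = _ := by ring

/-- decay of smoothed densities -/
theorem smooth_decay (n : ℕ) (hn : 2 ≤ n) : ∃ C : ℝ, 0 < C ∧ ∀ h : E n → ℂ, Measurable h →
    ∀ M : ℝ, (∀ x, ‖h x‖ ≤ M) → ∀ x : E n,
    ‖T (A 1 h) x‖ ≤ C * M * (1 + ‖x‖) ^ (-(((n : ℝ) - 1) / 2)) := by
  obtain ⟨C, hC, hcs⟩ := cell_sq n hn
  have := sg_finite n
  set d : ℝ := ((n : ℝ) - 1) / 2 with hd
  have hd0 : 0 ≤ d := by
    have : (2 : ℝ) ≤ n := by exact_mod_cast hn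
    simp only [hd]; linarith
  set t : ℝ := (sg n).real univ with ht
  have ht0 : 0 ≤ t := measureReal_nonneg
  refine ⟨Real.sqrt (C * (t + 1) * 2 ^ d), by positivity, fun h hh M hM x => ?_⟩
  have hM0 : 0 ≤ M := (norm_nonneg _).trans (hM 0)
  have h1 := hcs 1 (fun _ => 0) measurable_const (t + 1) (fun i => by
    refine (measureReal_mono (subset_univ _)).trans ?_
    linarith) h hh M hM (by positivity) 1 le_rfl x
  have e1 : ∀ i : Fin 1, ind (fun _ => (0 : Fin 1)) h i = h := by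
    intro i
    unfold ind
    have : {w : E n | (0 : Fin 1) = i} = univ := by
      ext w
      simp [Subsingleton.elim i 0]
    rw [this, indicator_univ]
  simp only [Finset.univ_unique, Fin.default_eq_zero, Fin.isValue, Finset.sum_singleton, e1,
    Real.one_rpow, one_mul] at h1
  have h2 : (1 + ‖x‖ ^ 2) ^ (-d) ≤ 2 ^ d * ((1 + ‖x‖) ^ (-d)) ^ 2 := by
    have e2 : 2 ^ d * ((1 + ‖x‖) ^ (-d)) ^ 2 = ((1 + ‖x‖) ^ 2 / 2) ^ (-d) := by
      rw [Real.div_rpow (by positivity) (by norm_num), Real.rpow_neg (by norm_num : (0:ℝ) ≤ 2),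
        ← Real.rpow_natCast ((1 + ‖x‖) ^ (-d)) 2, ← Real.rpow_natCast (1 + ‖x‖) 2,
        ← Real.rpow_mul (by positivity), ← Real.rpow_mul (by positivity)]
      have : -d * ((2 : ℕ) : ℝ) = ((2 : ℕ) : ℝ) * -d := by ring
      rw [this]
      field_simp
    rw [e2]
    apply Real.rpow_le_rpow_of_nonpos (by positivity) _ (by linarith)
    nlinarith [sq_nonneg (1 - ‖x‖)]
  have h3 : ‖T (A 1 h) x‖ ^ 2 ≤
      (Real.sqrt (C * (t + 1) * 2 ^ d) * M * (1 + ‖x‖) ^ (-d)) ^ 2 := by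
    rw [mul_pow, mul_pow, Real.sq_sqrt (by positivity)]
    calc ‖T (A 1 h) x‖ ^ 2 ≤ C * ((t + 1) * M ^ 2) * (1 + ‖x‖ ^ 2) ^ (-d) := h1
      _ ≤ C * ((t + 1) * M ^ 2) * (2 ^ d * ((1 + ‖x‖) ^ (-d)) ^ 2) := by gcongr
      _ = _ := by ring
  exact le_of_sq_le_sq h3 (by positivity)

end Pool.Agent.W5h48.RS
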