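import Mathlib
import Pool.Agent.W5h48.RS.K4
import Pool.Agent.W5h48.RS.K5
import Pool.Agent.W5h48.RS.R1
import Pool.Agent.W5h48.RS.P1
import Pool.Agent.W5h48.RS.P2
import Pool.Agent.H789R2.FR.AOp
set_option autoImplicit false

/-! Assembly. -/

namespace Pool.Agent.W5h48.RS

open MeasureTheory Measure ProbabilityTheory Set Metric Complex Filter Topology
open Pool.Agent.H789R2.FR
open scoped ENNReal RealInnerProductSpace

/-- the part of `g` at scale `m` -/
noncomputable def Part {n : ℕ} (m : ℕ) (g : E n → ℂ) : E n → ℂ :=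
  fun y => A (4 ^ (m + 1)) g y - A (4 ^ m) g y

/-- the modified part of `g` -/
noncomputable def Term {n : ℕ} (m : ℕ) (g θ : E n → ℂ) : E n → ℂ :=
  fun y => A (4 ^ (m + 1)) (fun w => θ w * Part m g w) y + A (4 ^ m) (fun w => θ w * Part m g w) y

theorem four_pos (m : ℕ) : (1 : ℝ) ≤ 4 ^ m := one_le_pow₀ (by norm_num)

theorem Part_meas {n : ℕ} (m : ℕ) {g : E n → ℂ} (hg : Measurable g) : Measurable (Part m g) :=
  (A_meas _ hg).sub (A_meas _ hg)

theorem Part_bound {n : ℕ} (m : ℕ) {g : E n → ℂ} {M : ℝ} (hM : ∀ w, ‖g w‖ ≤ M) (y : E n) :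
    ‖Part m g y‖ ≤ 2 * M := by
  unfold Part
  have h1 := A_bound (4 ^ (m + 1)) (by positivity) hM y
  have h2 := A_bound (4 ^ m) (by positivity) hM y
  calc _ ≤ _ := norm_sub_le _ _
    _ ≤ 2 * M := by linarith

theorem Term_meas {n : ℕ} (m : ℕ) {g θ : E n → ℂ} (hg : Measurable g) (hθ : Measurable θ) :
    Measurable (Term m g θ) :=
  (A_meas _ (hθ.mul (Part_meas m hg))).add (A_meas _ (hθ.mul (Part_meas m hg)))

theorem Term_bound {n : ℕ} (m : ℕ) {g θ : E n → ℂ} {c : ℝ}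
    (hc : ∀ w, ‖θ w * Part m g w‖ ≤ c) (y : E n) : ‖Term m g θ y‖ ≤ 2 * c := by
  unfold Term
  have h1 := A_bound (4 ^ (m + 1)) (by positivity) hc y
  have h2 := A_bound (4 ^ m) (by positivity) hc y
  calc _ ≤ _ := norm_add_le _ _
    _ ≤ 2 * c := by linarith

theorem T_add' {n : ℕ} {g h : E n → ℂ} (hg : Measurable g) (hh : Measurable h) {M M' : ℝ}
    (hM : ∀ x, ‖g x‖ ≤ M) (hM' : ∀ x, ‖h x‖ ≤ M') (x : E n) :
    T (fun y => g y + h y) x = T g x + T h x := by
  rw [T, T, T, ← integral_add (T_integrable hg hM x) (T_integrable hh hM' x)]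
  congr 1
  ext w
  ring

theorem T_sub' {n : ℕ} {g h : E n → ℂ} (hg : Measurable g) (hh : Measurable h) {M M' : ℝ}
    (hM : ∀ x, ‖g x‖ ≤ M) (hM' : ∀ x, ‖h x‖ ≤ M') (x : E n) :
    T (fun y => g y - h y) x = T g x - T h x := by
  rw [T, T, T, ← integral_sub (T_integrable hg hM x) (T_integrable hh hM' x)]
  congr 1
  ext w
  ring

/-- expansion over the cells -/
theorem T_A_cells {n : ℕ} (hn : 2 ≤ n) {N : ℕ} (q : E n → Fin N) (hq : Measurable q)
    {b : E n → ℂ} (hb : Measurable b) {β : ℝ} (hβ : ∀ w, ‖b w‖ ≤ β) (e : Fin N → ℝ)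
    (he : ∀ i, |e i| ≤ 1) (R : ℝ) (hR : 1 ≤ R) (x : E n) :
    T (A R (fun w => (e (q w) : ℂ) * b w)) x = ∑ i, (e i : ℂ) * T (A R (ind q b i)) x := by
  obtain ⟨y, hy⟩ := exists_unit n hn
  have := sg_finite n
  have hR0 : 0 < R := by linarith
  have hDy := D_pos n hn R hR y hy
  have hβ0 : 0 ≤ β := (norm_nonneg _).trans (hβ 0)
  have hem : Measurable (fun w => (e (q w) : ℂ)) :=
    (measurable_of_finite (fun i : Fin N => (e i : ℂ))).comp hq
  have heb : ∀ w, ‖(e (q w) : ℂ) * b w‖ ≤ β := by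
    intro w
    rw [norm_mul, Complex.norm_real, Real.norm_eq_abs]
    calc |e (q w)| * ‖b w‖ ≤ 1 * β := mul_le_mul (he _) (hβ w) (norm_nonneg _) (by norm_num)
      _ = β := one_mul _
  have hmul : Measurable (fun w => (e (q w) : ℂ) * b w) := hem.mul hb
  rw [T_A_eq n hn _ hmul β heb R hR x y hy]
  have e0 : ∀ i, T (A R (ind q b i)) x = ∫ w', ind q b i w' * (KI R x w' / (D R y : ℂ)) ∂(sg n) :=
    fun i => T_A_eq n hn _ (ind_meas hq hb i) β (ind_bound hβ i) R hR x y hy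
  simp_rw [e0]
  have hKc := KI_cont n R hR0.le x
  set t : ℝ := (sg n).real univ with ht
  have hKb : ∀ w, ‖KI R x w‖ ≤ t := by
    intro w
    unfold KI
    calc ‖∫ v, Complex.exp (-((⟪x, v⟫ : ℝ) : ℂ) * I) *
          ((Real.exp (-(R / 2) * ‖v - w‖ ^ 2) : ℝ) : ℂ) ∂(sg n)‖ ≤ 1 * (sg n).real univ := by
          refine norm_integral_le_of_norm_le_const ?_
          filter_upwards with v
          rw [norm_mul, kern_norm, one_mul, Complex.norm_real,
            Real.norm_of_nonneg (Real.exp_pos _).le]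
          exact w_le R hR0.le v w
      _ = t := by rw [one_mul]
  have hint : ∀ i, Integrable (fun w' => (e i : ℂ) * (ind q b i w' * (KI R x w' / (D R y : ℂ))))
      (sg n) := by
    intro i
    refine Integrable.const_mul ?_ _
    refine Integrable.of_bound
      ((ind_meas hq hb i).mul (hKc.measurable.div_const _)).aestronglyMeasurable
      (β * (t / D R y)) (Filter.Eventually.of_forall fun w => ?_)
    rw [norm_mul, norm_div, Complex.norm_real, Real.norm_of_nonneg hDy.le]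
    have h1 := hKb w
    have h2 := ind_bound hβ i (q := q) w
    gcongr
  simp_rw [← integral_const_mul]
  rw [← integral_finsetSum _ (fun i _ => hint i)]
  congr 1
  ext w
  have e1 : ∀ i, ind q b i w = if q w = i then b w else 0 := by
    intro i
    unfold ind
    rw [indicator_apply]
    rfl
  simp_rw [e1]
  rw [Finset.sum_eq_single (q w)]
  · simp only [if_true]
    unfold KI
    ring
  · intro i _ hi
    rw [if_neg (Ne.symm hi)]
    simp
  · intro h
    exact absurd (Finset.mem_univ _) h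

/-- the transform of a modified part, over the cells -/
theorem T_Term {n : ℕ} (hn : 2 ≤ n) {N : ℕ} (q : E n → Fin N) (hq : Measurable q)
    {g : E n → ℂ} (hg : Measurable g) (hg1 : ∀ w, ‖g w‖ ≤ 1) (e : Fin N → ℝ)
    (he : ∀ i, |e i| ≤ 1) (m : ℕ) (x : E n) :
    T (Term m g (fun w => (e (q w) : ℂ))) x =
      ∑ i, (e i : ℂ) * (T (A (4 ^ (m + 1)) (ind q (Part m g) i)) x +
        T (A (4 ^ m) (ind q (Part m g) i)) x) := by
  have hem : Measurable (fun w => (e (q w) : ℂ)) :=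
    (measurable_of_finite (fun i : Fin N => (e i : ℂ))).comp hq
  have hb := Part_meas m hg
  have hβ := Part_bound m hg1
  have heb : ∀ w, ‖(e (q w) : ℂ) * Part m g w‖ ≤ 2 * 1 := by
    intro w
    rw [norm_mul, Complex.norm_real, Real.norm_eq_abs]
    calc |e (q w)| * ‖Part m g w‖ ≤ 1 * (2 * 1) :=
          mul_le_mul (he _) (hβ w) (norm_nonneg _) (by norm_num)
      _ = 2 * 1 := one_mul _
  have hmul : Measurable (fun w => (e (q w) : ℂ) * Part m g w) := hem.mul hb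
  have h0 : T (Term m g (fun w => (e (q w) : ℂ))) x =
      T (fun y => A (4 ^ (m + 1)) (fun w => (e (q w) : ℂ) * Part m g w) y +
        A (4 ^ m) (fun w => (e (q w) : ℂ) * Part m g w) y) x := rfl
  rw [h0, T_add' (A_meas _ hmul) (A_meas _ hmul)
    (A_bound (4 ^ (m + 1)) (by positivity) heb) (A_bound (4 ^ m) (by positivity) heb),
    T_A_cells hn q hq hb hβ e he _ (four_pos _) x, T_A_cells hn q hq hb hβ e he _ (four_pos _) x,
    ← Finset.sum_add_distrib]
  refine Finset.sum_congr rfl fun i _ => ?_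
  ring

/-- the square function of a term -/
theorem var_bound (n : ℕ) (hn : 2 ≤ n) : ∃ C : ℝ, 0 < C ∧ ∀ (N : ℕ) (q : E n → Fin N),
    Measurable q → ∀ (m : ℕ) (a : ℝ), 0 ≤ a →
    (∀ i, (sg n).real {w | q w = i} ≤ a * (4 ^ m) ^ (-(((n : ℝ) - 1) / 2))) →
    ∀ g : E n → ℂ, Measurable g → (∀ w, ‖g w‖ ≤ 1) → ∀ x : E n,
    ∑ i, ‖T (A (4 ^ (m + 1)) (ind q (Part m g) i)) x + T (A (4 ^ m) (ind q (Part m g) i)) x‖ ^ 2 ≤
      C * a * (4 ^ m + ‖x‖ ^ 2) ^ (-(((n : ℝ) - 1) / 2)) := by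
  obtain ⟨C, hC, hcs⟩ := cell_sq n hn
  set d : ℝ := ((n : ℝ) - 1) / 2 with hd
  have hd0 : 0 ≤ d := by
    have : (2 : ℝ) ≤ n := by exact_mod_cast hn
    simp only [hd]; linarith
  refine ⟨2 * (C * 4) * (4 ^ d + 1), by positivity, fun N q hq m a ha hcell g hg hg1 x => ?_⟩
  set R : ℝ := 4 ^ m with hR
  have hR1 : 1 ≤ R := four_pos m
  have hR0 : 0 < R := by linarith
  have hR4 : (4 : ℝ) ^ (m + 1) = 4 * R := by rw [pow_succ, hR]; ring
  have h1 := hcs N q hq (a * R ^ (-d)) hcell (Part m g) (Part_meas m hg) (2 * 1)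
    (Part_bound m hg1) (by positivity) R hR1 x
  have h2 := hcs N q hq (a * R ^ (-d)) hcell (Part m g) (Part_meas m hg) (2 * 1)
    (Part_bound m hg1) (by positivity) (4 ^ (m + 1)) (four_pos _) x
  rw [hR4] at h2
  have hRd : R ^ (-d) * R ^ d = 1 := by
    rw [← Real.rpow_add hR0]
    simp
  have h3 : (4 * R) ^ d * (4 * R + ‖x‖ ^ 2) ^ (-d) ≤ 4 ^ d * (R ^ d * (R + ‖x‖ ^ 2) ^ (-d)) := by
    rw [Real.mul_rpow (by norm_num) hR0.le, mul_assoc]
    gcongr 4 ^ d * (R ^ d * ?_)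
    apply Real.rpow_le_rpow_of_nonpos (by positivity) _ (by linarith)
    nlinarith
  have hQ : 0 < (R + ‖x‖ ^ 2) ^ (-d) := by positivity
  rw [hR4]
  calc ∑ i, ‖T (A (4 * R) (ind q (Part m g) i)) x + T (A R (ind q (Part m g) i)) x‖ ^ 2
      ≤ ∑ i, (2 * ‖T (A (4 * R) (ind q (Part m g) i)) x‖ ^ 2 +
          2 * ‖T (A R (ind q (Part m g) i)) x‖ ^ 2) := by
        refine Finset.sum_le_sum fun i _ => ?_
        have e1 := norm_add_le (T (A (4 * R) (ind q (Part m g) i)) x)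
          (T (A R (ind q (Part m g) i)) x)
        have e2 : ‖T (A (4 * R) (ind q (Part m g) i)) x + T (A R (ind q (Part m g) i)) x‖ ^ 2 ≤
            (‖T (A (4 * R) (ind q (Part m g) i)) x‖ + ‖T (A R (ind q (Part m g) i)) x‖) ^ 2 := by
          gcongr
        nlinarith [sq_nonneg (‖T (A (4 * R) (ind q (Part m g) i)) x‖ -
          ‖T (A R (ind q (Part m g) i)) x‖)]
    _ = 2 * ∑ i, ‖T (A (4 * R) (ind q (Part m g) i)) x‖ ^ 2 +
          2 * ∑ i, ‖T (A R (ind q (Part m g) i)) x‖ ^ 2 := by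
        rw [Finset.sum_add_distrib, Finset.mul_sum, Finset.mul_sum]
    _ ≤ 2 * (C * (a * R ^ (-d) * (2 * 1) ^ 2) * (4 ^ d * (R ^ d * (R + ‖x‖ ^ 2) ^ (-d)))) +
          2 * (C * (a * R ^ (-d) * (2 * 1) ^ 2) * (R ^ d * (R + ‖x‖ ^ 2) ^ (-d))) := by
        gcongr
        refine h2.trans ?_
        gcongr
    _ = (R ^ (-d) * R ^ d) * (2 * (C * 4) * (4 ^ d + 1) * a * (R + ‖x‖ ^ 2) ^ (-d)) := by ring
    _ = _ := by rw [hRd, one_mul]

end Pool.Agent.W5h48.RS
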