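import Mathlib
import Pool.Agent.W5h48.RS.M1
set_option autoImplicit false

/-! The main estimates, on `ℝ^n`. -/

namespace Pool.Agent.W5h48.RS

open MeasureTheory Measure ProbabilityTheory Set Metric Complex Filter Topology
open Pool.Agent.H789R2.FR
open scoped ENNReal RealInnerProductSpace

theorem T_congr {n : ℕ} {g h : E n → ℂ} (H : ∀ w, ‖w‖ = 1 → g w = h w) (x : E n) :
    T g x = T h x := by
  unfold T
  apply integral_congr_ae
  filter_upwards [sg_ae n] with w hw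
  rw [H w hw]

theorem Term_one {n : ℕ} (hn : 2 ≤ n) (m : ℕ) {g : E n → ℂ} (hg : Measurable g) {M : ℝ}
    (hM : ∀ w, ‖g w‖ ≤ M) (y : E n) (hy : ‖y‖ = 1) :
    Term m g (fun _ => 1) y =
      A (4 ^ (m + 1)) (A (4 ^ (m + 1)) g) y - A (4 ^ m) (A (4 ^ m) g) y := by
  unfold Term
  simp only [one_mul]
  have h1 : (0 : ℝ) < 4 ^ (m + 1) := by positivity
  have h2 : (0 : ℝ) < 4 ^ m := by positivity
  have b1 : ∃ M : ℝ, ∀ x, ‖A (4 ^ (m + 1)) g x‖ ≤ M := ⟨M, A_bound _ h1.le hM⟩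
  have b2 : ∃ M : ℝ, ∀ x, ‖A (4 ^ m) g x‖ ≤ M := ⟨M, A_bound _ h2.le hM⟩
  have e1 := A_sub n (4 ^ (m + 1)) h1 (A (4 ^ (m + 1)) g) (A (4 ^ m) g) (A_meas _ hg)
    (A_meas _ hg) b1 b2 y
  have e2 := A_sub n (4 ^ m) h2 (A (4 ^ (m + 1)) g) (A (4 ^ m) g) (A_meas _ hg)
    (A_meas _ hg) b1 b2 y
  have e3 := A_comm n hn (4 ^ m) (4 ^ (m + 1)) h2 h1 g hg ⟨M, hM⟩ y hy
  have f1 : A (4 ^ (m + 1)) (Part m g) y = A (4 ^ (m + 1)) (fun x => A (4 ^ (m + 1)) g x -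
    A (4 ^ m) g x) y := rfl
  have f2 : A (4 ^ m) (Part m g) y = A (4 ^ m) (fun x => A (4 ^ (m + 1)) g x -
    A (4 ^ m) g x) y := rfl
  have f3 : A (4 ^ (m + 1)) (fun w => Part m g w) y = A (4 ^ (m + 1)) (Part m g) y := rfl
  have f4 : A (4 ^ m) (fun w => Part m g w) y = A (4 ^ m) (Part m g) y := rfl
  rw [f3, f4, f1, f2, e1, e2, e3]
  ring

theorem four_half (m : ℕ) : ((4 : ℝ) ^ m) ^ (-(1 / 2) : ℝ) = (1 / 2) ^ m := by
  rw [← Real.rpow_natCast, ← Real.rpow_mul (by norm_num), mul_comm, Real.rpow_mul (by norm_num),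
    Real.rpow_natCast]
  congr 1
  rw [Real.rpow_neg (by norm_num), show (4 : ℝ) = 2 ^ 2 by norm_num, ← Real.sqrt_eq_rpow,
    Real.sqrt_sq (by norm_num)]
  norm_num

/-- with all signs equal to one the terms add up to the transform of `g`. -/
theorem decomp {n : ℕ} (hn : 2 ≤ n) {g : E n → ℂ} (hg : Measurable g) {M : ℝ}
    (hM : ∀ w, ‖g w‖ ≤ M) (x : E n) :
    HasSum (fun m => T (Term m g (fun _ => 1)) x) (T g x - T (A 1 (A 1 g)) x) := by
  obtain ⟨C, hC, hrep⟩ := repro n hn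
  set s : ℕ → ℂ := fun m => T (A (4 ^ m) (A (4 ^ m) g)) x with hs
  have hM0 : 0 ≤ M := (norm_nonneg _).trans (hM 0)
  have h1 : ∀ m, T (Term m g (fun _ => 1)) x = s (m + 1) - s m := by
    intro m
    have b1 := A_bound (4 ^ (m + 1)) (by positivity) (A_bound (4 ^ (m + 1)) (by positivity) hM)
    have b2 := A_bound (4 ^ m) (by positivity) (A_bound (4 ^ m) (by positivity) hM)
    rw [T_congr (h := fun y => A (4 ^ (m + 1)) (A (4 ^ (m + 1)) g) y -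
      A (4 ^ m) (A (4 ^ m) g) y) (fun w hw => Term_one hn m hg hM w hw) x,
      T_sub' (A_meas _ (A_meas _ hg)) (A_meas _ (A_meas _ hg)) b1 b2]
  have h2 : ∀ m, ‖s m - T g x‖ ≤ 2 * (C * M * ‖x‖) * (1 / 2) ^ m := by
    intro m
    have e1 := hrep (A (4 ^ m) g) (A_meas _ hg) M (A_bound _ (by positivity) hM) (4 ^ m)
      (four_pos m) x
    have e2 := hrep g hg M hM (4 ^ m) (four_pos m) x
    rw [four_half] at e1 e2
    calc ‖s m - T g x‖ = ‖(T (A (4 ^ m) (A (4 ^ m) g)) x - T (A (4 ^ m) g) x) +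
          (T (A (4 ^ m) g) x - T g x)‖ := by
          congr 1
          ring
      _ ≤ _ := norm_add_le _ _
      _ ≤ _ := by linarith
  have hgeo : Tendsto (fun m : ℕ => 2 * (C * M * ‖x‖) * (1 / 2 : ℝ) ^ m) atTop (𝓝 0) := by
    have := (tendsto_pow_atTop_nhds_zero_of_lt_one (by norm_num : (0:ℝ) ≤ 1 / 2)
      (by norm_num : (1 / 2 : ℝ) < 1)).const_mul (2 * (C * M * ‖x‖))
    rwa [mul_zero] at this
  have h3 : Tendsto s atTop (𝓝 (T g x)) := by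
    rw [tendsto_iff_norm_sub_tendsto_zero]
    exact squeeze_zero (fun m => norm_nonneg _) h2 hgeo
  have h4 : Summable (fun m => T (Term m g (fun _ => 1)) x) := by
    have hsg : Summable (fun m : ℕ => 2 * (2 * (C * M * ‖x‖)) * (1 / 2 : ℝ) ^ m) :=
      (summable_geometric_of_lt_one (by norm_num) (by norm_num)).mul_left _
    refine Summable.of_norm_bounded hsg fun m => ?_
    rw [h1]
    have e1 := h2 (m + 1)
    have e2 := h2 m
    have e3 : 2 * (C * M * ‖x‖) * (1 / 2 : ℝ) ^ (m + 1) ≤ 2 * (C * M * ‖x‖) * (1 / 2 : ℝ) ^ m := by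
      have : (1 / 2 : ℝ) ^ (m + 1) ≤ (1 / 2 : ℝ) ^ m :=
        pow_le_pow_of_le_one (by norm_num) (by norm_num) (by omega)
      have : 0 ≤ 2 * (C * M * ‖x‖) := by positivity
      gcongr
    calc ‖s (m + 1) - s m‖ = ‖(s (m + 1) - T g x) - (s m - T g x)‖ := by
          congr 1
          ring
      _ ≤ _ := norm_sub_le _ _
      _ ≤ _ := by linarith
  have h5 : ∀ k, ∑ m ∈ Finset.range k, T (Term m g (fun _ => 1)) x = s k - s 0 := by
    intro k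
    simp_rw [h1]
    exact Finset.sum_range_sub s k
  have h6 : Tendsto (fun k => ∑ m ∈ Finset.range k, T (Term m g (fun _ => 1)) x) atTop
      (𝓝 (T g x - s 0)) := by
    simp_rw [h5]
    exact h3.sub_const _
  have h7 : s 0 = T (A 1 (A 1 g)) x := by
    simp only [hs, pow_zero]
  rw [← h7]
  have h8 := h4.hasSum.tendsto_sum_nat
  have h9 := tendsto_nhds_unique h8 h6
  rw [← h9]
  exact h4.hasSum

/-- the property of the good event -/
def Nice {n : ℕ} (F : ℕ → E n → ℂ) (L : ℝ) : Prop :=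
  ∀ x, Summable (fun m => ‖F m x‖) ∧ ∑' m, ‖F m x‖ ≤
    L * (1 + Real.log (1 + ‖x‖)) ^ (3 / 2 : ℝ) * (1 + ‖x‖) ^ (-(((n : ℝ) - 1) / 2))

theorem tail_lib (n : ℕ) (hn : 2 ≤ n) (a : ℝ) (ha : 0 ≤ a) : ∃ C : ℝ, 0 < C ∧
    ∀ {Ω : Type*} [MeasurableSpace Ω] (P : Measure Ω) [IsProbabilityMeasure P] (g : E n → ℂ),
    Measurable g → (∀ w, ‖g w‖ ≤ 1) → ∀ (N : ℕ → ℕ) (q : ∀ m, E n → Fin (N m)),
    (∀ m, Measurable (q m)) →
    (∀ m i, (sg n).real {w | q m w = i} ≤ a * (4 ^ m) ^ (-(((n : ℝ) - 1) / 2))) →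
    ∀ (ε : ∀ m, Fin (N m) → Ω → ℝ), (∀ m i, Measurable (ε m i)) → (∀ m i ω, |ε m i ω| ≤ 1) →
    (∀ m i, ∫ ω, ε m i ω ∂P = 0) → (∀ m, iIndepFun (ε m) P) → ∀ L : ℝ, C ≤ L →
    P {ω | ¬ Nice (fun m x => T (Term m g (fun w => (ε m (q m w) ω : ℂ))) x) L} ≤
      ENNReal.ofReal (Real.exp (-(L ^ 2) / C)) := by
  obtain ⟨C1, hC1, hvar⟩ := var_bound n hn
  set d : ℝ := ((n : ℝ) - 1) / 2 with hd
  have hd0 : 0 < d := by
    have : (2 : ℝ) ≤ n := by exact_mod_cast hn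
    simp only [hd]; linarith
  obtain ⟨C2, hC2, hsum⟩ := sum_scales d hd0
  set t : ℝ := (sg n).real univ with ht
  have ht0 : 0 ≤ t := measureReal_nonneg
  set K : ℝ := Real.sqrt (C1 * a) + 4 * t + 1 with hK
  have hK0 : 0 < K := by positivity
  have hcN : 0 < cN n := by unfold cN; positivity
  set κ : ℝ := cN n * K * C2 with hκ
  have hκ0 : 0 < κ := by positivity
  set Λ0 : ℝ := 8 * ((n : ℝ) + 1) * (n + 2) with hΛ0
  have hΛ01 : 1 ≤ Λ0 := by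
    have h1 : (0 : ℝ) ≤ n := by positivity
    nlinarith
  refine ⟨κ * Λ0 + 16 * κ ^ 2, by positivity, ?_⟩
  intro Ω _ P _ g hg hg1 N q hq hcell ε hεm hε1 hε0 hind L hL
  set F : ℕ → E n → Ω → ℂ := fun m x ω => T (Term m g (fun w => (ε m (q m w) ω : ℂ))) x with hF
  set Λ : ℝ := L / κ with hΛ
  have hLκ : L = κ * Λ := by rw [hΛ]; field_simp
  have hΛge : Λ0 ≤ Λ := by
    rw [hΛ, le_div_iff₀ hκ0]
    nlinarith [sq_nonneg κ]
  have hFcell : ∀ m x ω, F m x ω = ∑ i, (ε m i ω : ℂ) *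
      (T (A (4 ^ (m + 1)) (ind (q m) (Part m g) i)) x +
        T (A (4 ^ m) (ind (q m) (Part m g) i)) x) := by
    intro m x ω
    exact T_Term hn (q m) (hq m) hg hg1 (fun i => ε m i ω) (fun i => hε1 m i ω) m x
  have hθm : ∀ m ω, Measurable (fun w => (ε m (q m w) ω : ℂ)) := fun m ω =>
    (measurable_of_finite (fun i : Fin (N m) => (ε m i ω : ℂ))).comp (hq m)
  have hLip : ∀ m x x' ω, ‖F m x ω - F m x' ω‖ ≤ K * ‖x - x'‖ := by
    intro m x x' ω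
    have hb : ∀ w, ‖(ε m (q m w) ω : ℂ) * Part m g w‖ ≤ 2 := by
      intro w
      rw [norm_mul, Complex.norm_real, Real.norm_eq_abs]
      calc |ε m (q m w) ω| * ‖Part m g w‖ ≤ 1 * (2 * 1) :=
            mul_le_mul (hε1 _ _ _) (Part_bound m hg1 w) (norm_nonneg _) (by norm_num)
        _ = 2 := by norm_num
    have h1 := T_lip (Term_meas m hg (hθm m ω)) (Term_bound m hb) x x'
    refine h1.trans ?_
    rw [← ht]
    have h2 : 0 ≤ Real.sqrt (C1 * a) := Real.sqrt_nonneg _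
    have h3 : 4 * t ≤ K := by simp only [hK]; linarith
    calc ‖x - x'‖ * (2 * 2) * t = (4 * t) * ‖x - x'‖ := by ring
      _ ≤ _ := by gcongr
  have hV : ∀ m x u, 0 ≤ u → P {ω | u ≤ ‖F m x ω‖} ≤
      ENNReal.ofReal (4 * Real.exp (-u ^ 2 /
        (4 * (K ^ 2 * (4 ^ m + ‖x‖ ^ 2) ^ (-d))))) := by
    intro m x u hu
    have h1 := hvar (N m) (q m) (hq m) m a ha (hcell m) g hg hg1 x
    have h2 : C1 * a * (4 ^ m + ‖x‖ ^ 2) ^ (-d) ≤ K ^ 2 * (4 ^ m + ‖x‖ ^ 2) ^ (-d) := by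
      have : C1 * a ≤ K ^ 2 := by
        have e1 : Real.sqrt (C1 * a) ≤ K := by simp only [hK]; linarith
        calc C1 * a = Real.sqrt (C1 * a) ^ 2 := (Real.sq_sqrt (by positivity)).symm
          _ ≤ K ^ 2 := by gcongr
      have : (0 : ℝ) < (4 ^ m + ‖x‖ ^ 2) ^ (-d) := by positivity
      gcongr
    have h3 := complex_tail (P := P) (ε m) (hεm m) (hε1 m) (hε0 m) (hind m)
      (fun i => T (A (4 ^ (m + 1)) (ind (q m) (Part m g) i)) x +
        T (A (4 ^ m) (ind (q m) (Part m g) i)) x) _ (h1.trans h2) u hu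
    simp_rw [hFcell]
    exact h3
  have hnet := net n (by omega) P F K Λ hK0 (hΛ01.trans hΛge) (by
    calc 8 * ((n : ℝ) + 1) * (n + 2) = Λ0 := hΛ0.symm
      _ ≤ Λ := hΛge
      _ ≤ Λ ^ 2 := by nlinarith) hLip hV
  have hsub : {ω | ¬ Nice (fun m x => T (Term m g (fun w => (ε m (q m w) ω : ℂ))) x) L} ⊆
      bad F K Λ := by
    intro ω hω hbad
    apply hω
    intro x
    obtain ⟨j, hj1, hj2⟩ := exists_scale ‖x‖ (norm_nonneg _)
    obtain ⟨hs1, hs2⟩ := hsum ‖x‖ (norm_nonneg _) j hj1 hj2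
    have h1 : ∀ m, ‖F m x ω‖ ≤ (cN n * K * Λ) *
        (Real.sqrt (m + j + 1) * (4 ^ m + ‖x‖ ^ 2) ^ (-(d / 2))) := by
      intro m
      have := hbad m j x hj1
      calc ‖F m x ω‖ ≤ _ := this
        _ = _ := by ring
    have h2 : Summable (fun m => ‖F m x ω‖) :=
      Summable.of_nonneg_of_le (fun m => norm_nonneg _) h1 (hs1.mul_left _)
    refine ⟨h2, ?_⟩
    have h3 : ∑' m, ‖F m x ω‖ ≤ (cN n * K * Λ) *
        ∑' m : ℕ, (Real.sqrt (m + j + 1) * (4 ^ m + ‖x‖ ^ 2) ^ (-(d / 2))) := by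
      rw [← tsum_mul_left]
      exact h2.tsum_le_tsum h1 (hs1.mul_left _)
    have hΛpos : 0 < Λ := by linarith
    calc ∑' m, ‖F m x ω‖ ≤ _ := h3
      _ ≤ (cN n * K * Λ) * (C2 * (1 + Real.log (1 + ‖x‖)) ^ (3 / 2 : ℝ) *
          (1 + ‖x‖) ^ (-d)) := by gcongr
      _ = _ := by rw [hLκ, hκ]; ring
  refine (measure_mono hsub).trans (hnet.trans (ENNReal.ofReal_le_ofReal ?_))
  apply Real.exp_le_exp.2
  rw [hLκ, mul_pow, div_le_div_iff₀ (by norm_num) (by positivity)]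
  have : 0 ≤ κ * Λ0 * Λ ^ 2 := by positivity
  nlinarith

end Pool.Agent.W5h48.RS
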