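import Mathlib
import Pool.Agent.W5h48.RS.M2
set_option autoImplicit false

/-! Transfer to functions on the sphere. -/

namespace Pool.Agent.W5h48.RS

open MeasureTheory Measure ProbabilityTheory Set Metric Complex Filter Topology
open Pool.Agent.H789R2.FR
open scoped ENNReal RealInnerProductSpace

/-- the sphere -/
abbrev Sp (n : ℕ) := sphere (0 : E n) 1

theorem emb (n : ℕ) : MeasurableEmbedding (Subtype.val : Sp n → E n) :=
  MeasurableEmbedding.subtype_coe isClosed_sphere.measurableSet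

theorem Sp_norm {n : ℕ} (x : Sp n) : ‖(x : E n)‖ = 1 := by
  have := x.2
  rwa [mem_sphere_zero_iff_norm] at this

/-- extension by zero -/
noncomputable def ex {n : ℕ} (g : Sp n → ℂ) : E n → ℂ := Function.extend Subtype.val g 0

theorem ex_apply {n : ℕ} (g : Sp n → ℂ) (x : Sp n) : ex g (x : E n) = g x :=
  Subtype.val_injective.extend_apply g 0 x

theorem ex_meas {n : ℕ} {g : Sp n → ℂ} (hg : Measurable g) : Measurable (ex g) :=
  (emb n).measurable_extend hg measurable_const

theorem ex_bound {n : ℕ} {g : Sp n → ℂ} {M : ℝ} (hM0 : 0 ≤ M) (hM : ∀ x, ‖g x‖ ≤ M) (w : E n) :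
    ‖ex g w‖ ≤ M := by
  by_cases h : ∃ x : Sp n, (x : E n) = w
  · obtain ⟨x, rfl⟩ := h
    rw [ex_apply]
    exact hM x
  · unfold ex
    rw [Function.extend_apply' _ _ _ h]
    simpa using hM0

theorem int_sg {n : ℕ} {F : Type*} [NormedAddCommGroup F] [NormedSpace ℝ F] (f : E n → F) :
    ∫ w, f w ∂(sg n) = ∫ x : Sp n, f x ∂((volume : Measure (E n)).toSphere) := by
  unfold sg
  exact (emb n).integral_map f

theorem A_congr {n : ℕ} {g h : E n → ℂ} (H : ∀ w, ‖w‖ = 1 → g w = h w) (R : ℝ) :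
    A R g = A R h := by
  funext y
  unfold A
  congr 1
  apply integral_congr_ae
  filter_upwards [sg_ae n] with w hw
  rw [H w hw]

theorem ex_congr {n : ℕ} {g : Sp n → ℂ} {G : E n → ℂ} (H : ∀ x : Sp n, g x = G x) :
    ∀ w : E n, ‖w‖ = 1 → ex g w = G w := by
  intro w hw
  have := H ⟨w, by rwa [mem_sphere_zero_iff_norm]⟩
  rw [← this]
  exact ex_apply g ⟨w, _⟩

end Pool.Agent.W5h48.RS
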